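import Pool.Agent.H53R7.Main

/-! # Approximate programs whose limit vanishes on a graph -/

set_option autoImplicit false
set_option linter.unusedSectionVars false

open MvPolynomial Module Finset

namespace Pool.Agent.H53R8

open Pool.Agent.H546R2.SL Pool.Agent.H632R2.Border Pool.Agent.H53R7

lemma aeval_map_map {A B : Type*} [CommRing A] [CommRing B] (f : A →+* B) {σ ι : Type*}
    (s : σ → MvPolynomial ι A) (p : MvPolynomial σ A) :
    aeval (fun v => map f (s v)) (map f p) = map f (aeval s p) := by
  induction p using MvPolynomial.induction_on with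
  | C c =>
    rw [map_C, aeval_C, aeval_C]
    have h1 : algebraMap A (MvPolynomial ι A) c = C c := rfl
    have h2 : algebraMap B (MvPolynomial ι B) (f c) = C (f c) := rfl
    rw [h1, h2, map_C]
  | add p q hp hq => rw [map_add, map_add, hp, hq, map_add, map_add]
  | mul_X p v hp => rw [map_mul, map_mul, hp, map_X, aeval_X, map_mul, aeval_X, map_mul]

/-- the substitution of `ε ^ L` for `ε` -/
lemma exists_expand (K : Type*) [Field K] (L : ℕ) (hL : 0 < L) :
    ∃ ψ : RatFunc K →+* RatFunc K, ∀ p : Polynomial K,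
      ψ (algebraMap (Polynomial K) (RatFunc K) p) =
        algebraMap (Polynomial K) (RatFunc K) (Polynomial.expand K L p) := by
  have hinj : Function.Injective ((algebraMap (Polynomial K) (RatFunc K)).comp
      (Polynomial.expand K L : Polynomial K →+* Polynomial K)) := by
    intro p q hpq
    rw [RingHom.comp_apply, RingHom.comp_apply] at hpq
    have h1 := IsFractionRing.injective (Polynomial K) (RatFunc K) hpq
    exact Polynomial.expand_injective hL h1
  exact ⟨IsFractionRing.lift hinj, fun p => IsFractionRing.lift_algebraMap hinj p⟩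

lemma exists_rest {K : Type*} [Field K] {σ : Type*} (F' : MvPolynomial σ (Polynomial K)) (L : ℕ) :
    ∃ F₁ : MvPolynomial σ (Polynomial K),
      map (Polynomial.expand K L : Polynomial K →+* Polynomial K) F' =
        map Polynomial.C (map (Polynomial.evalRingHom 0) F') + C (Polynomial.X ^ L) * F₁ := by
  have h : C (Polynomial.X ^ L) ∣ map (Polynomial.expand K L : Polynomial K →+* Polynomial K) F' -
      map Polynomial.C (map (Polynomial.evalRingHom 0) F') := by
    rw [C_dvd_iff_dvd_coeff]
    intro m
    rw [coeff_sub, coeff_map, coeff_map, coeff_map]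
    set c := coeff m F'
    have h1 : c = Polynomial.X * c.divX + Polynomial.C (c.coeff 0) :=
      (Polynomial.X_mul_divX_add c).symm
    have h2 : (Polynomial.expand K L : Polynomial K →+* Polynomial K) c =
        Polynomial.X ^ L * Polynomial.expand K L c.divX + Polynomial.C (c.coeff 0) := by
      conv_lhs => rw [h1]
      rw [map_add, map_mul]
      simp
    rw [h2, Polynomial.coe_evalRingHom, ← Polynomial.coeff_zero_eq_eval_zero, add_sub_cancel_right]
    exact dvd_mul_right _ _
  obtain ⟨F₁, h1⟩ := h
  exact ⟨F₁, by rw [← h1]; ring⟩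

section Main

variable {K : Type*} [Field K] [CharZero K] {σ ι : Type*} [Fintype σ] [DecidableEq σ] [Fintype ι]

theorem exists_space (S : σ → MvPolynomial ι K) (hS : ∀ v, S v ∈ restrictTotalDegree ι K 1)
    (P : MvPolynomial σ K) (N : ℕ) (hN : 1 ≤ N) (hP : P.totalDegree ≤ N)
    (F' : MvPolynomial (Option σ) (Polynomial K))
    (hF : map (Polynomial.evalRingHom (0 : K)) F' ≠ 0)
    (h0 : gs P (map (Polynomial.evalRingHom (0 : K)) F') = 0)
    (F : MvPolynomial (Option σ) (RatFunc K)) (lam : RatFunc K)
    (hlam : map (algebraMap (Polynomial K) (RatFunc K)) F' = C lam * F) (s : ℕ) (M : Finset ℕ)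
    (g : ℕ → MvPolynomial (Option σ) (RatFunc K)) (hg : NSLP s M g) (hFg : ∃ i < s, F = g i) :
    ∃ (W : Submodule K (MvPolynomial ι K)) (G : MvPolynomial ι K),
      restrictTotalDegree ι K 1 ≤ W ∧ Good (fun t => N * Nm ι t) (3 * M.card) W ∧ G ≠ 0 ∧
      G ∈ W ∧ ∀ u, G * aeval S (pderiv u P) ∈ W := by
  classical
  set F₀ := map (Polynomial.evalRingHom (0 : K)) F' with hF₀
  obtain ⟨d, H, hFH, hH⟩ := exists_factor P F₀ hF h0
  -- a point where `H` does not vanish on the graph
  obtain ⟨x, hx⟩ : ∃ x : σ → K, eval x (gs P H) ≠ 0 := by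
    by_contra hcon
    push Not at hcon
    apply hH
    apply MvPolynomial.funext
    intro x
    rw [hcon x, map_zero]
  set w : σ → K := fun v => x v - eval 0 (S v) with hw
  set sR : σ → MvPolynomial ι (Polynomial K) := fun v =>
    map Polynomial.C (S v) + C (Polynomial.X * Polynomial.C (w v)) with hsR
  -- specialization at `0`
  have hs0 : ∀ v, map (Polynomial.evalRingHom (0 : K)) (sR v) = S v := by
    intro v
    rw [hsR]
    simp only [map_add, map_C, Polynomial.coe_evalRingHom, Polynomial.eval_mul,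
      Polynomial.eval_X, zero_mul, map_zero, add_zero]
    have : (Polynomial.evalRingHom (0 : K)).comp Polynomial.C = RingHom.id K := by
      ext c; simp
    rw [MvPolynomial.map_map, this, map_id]
  have hbase : ∀ (t : K) (c : K), Polynomial.evalRingHom t (algebraMap K (Polynomial K) c)
      = algebraMap K K c := by
    intro t c
    rw [Polynomial.algebraMap_eq]; simp
  have hE : aeval sR (gs P H) ≠ 0 := by
    intro h
    apply hx
    have h1 := congrArg (map (Polynomial.evalRingHom (1 : K))) h
    rw [map_aeval_base _ (hbase 1), map_zero] at h1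
    have h2 := congrArg (eval (0 : ι → K)) h1
    rw [map_zero] at h2
    rw [← h2]
    have h3 : (eval (0 : ι → K)).comp ((aeval fun v => map (Polynomial.evalRingHom (1 : K)) (sR v) :
        MvPolynomial σ K →ₐ[K] MvPolynomial ι K) : MvPolynomial σ K →+* MvPolynomial ι K)
        = eval x := by
      apply MvPolynomial.ringHom_ext
      · intro c; simp
      · intro v
        simp only [RingHom.comp_apply, RingHom.coe_coe, aeval_X, eval_X]
        rw [hsR]
        simp only [map_add, map_C, Polynomial.coe_evalRingHom, Polynomial.eval_mul,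
          Polynomial.eval_X, one_mul, Polynomial.eval_C, eval_C]
        have : (Polynomial.evalRingHom (1 : K)).comp Polynomial.C = RingHom.id K := by
          ext c; simp
        rw [MvPolynomial.map_map, this, map_id, hw]
        simp
    exact (DFunLike.congr_fun h3 (gs P H)).symm
  obtain ⟨k, E₀, hE₀, hG⟩ := exists_eps _ hE
  set G := map (Polynomial.evalRingHom (0 : K)) E₀ with hGdef
  set b : MvPolynomial ι (Polynomial K) := aeval sR P + C (Polynomial.X ^ (k + 1)) with hb
  set sT : Option σ → MvPolynomial ι (Polynomial K) := fun o => o.elim b sR with hsT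
  have hTren : ∀ p : MvPolynomial σ K, aeval sT (rename some p) = aeval sR p := by
    intro p
    rw [aeval_rename]
    rfl
  have hTq : aeval sT (qq P) = C (Polynomial.X ^ (k + 1)) := by
    rw [qq, map_sub, hTren, aeval_X]
    show b - aeval sR P = _
    rw [hb]; ring
  obtain ⟨r₀, hr₀⟩ := dvd_sub_rename P H
  have hTH : aeval sT H = C (Polynomial.X ^ k) * (E₀ + C Polynomial.X * aeval sT r₀) := by
    have h1 : H = rename some (gs P H) + qq P * r₀ := by rw [← hr₀]; ring
    rw [h1, map_add, map_mul, hTren, hTq, hE₀, pow_succ, map_mul]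
    ring
  set u₀ : Option σ → MvPolynomial ι (Polynomial K) := fun o =>
    ((d + 1 : ℕ) : MvPolynomial ι (Polynomial K)) * aeval sT (pderiv o (qq P)) *
      (E₀ + C Polynomial.X * aeval sT r₀) + C Polynomial.X * aeval sT (pderiv o H) with hu₀
  have hder₀ : ∀ o, aeval sT (pderiv o F₀) = C ((Polynomial.X ^ (k + 1)) ^ d * Polynomial.X ^ k)
      * u₀ o := by
    intro o
    rw [hFH, Derivation.leibniz, Derivation.leibniz_pow]
    simp only [smul_eq_mul, nsmul_eq_mul, Nat.add_sub_cancel, map_add, map_mul, map_pow,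
      map_natCast, hTq, hTH]
    rw [hu₀]
    simp only [map_pow]
    ring
  -- the substitution `ε ↦ ε ^ L`
  set L := (k + 1) * d + k + 1 with hL
  obtain ⟨ψ, hψ⟩ := exists_expand K L (by omega)
  obtain ⟨F₁, hF₁⟩ := exists_rest F' L
  set FL := map (Polynomial.expand K L : Polynomial K →+* Polynomial K) F' with hFL
  set u : Option σ → MvPolynomial ι (Polynomial K) := fun o =>
    u₀ o + C Polynomial.X * aeval sT (pderiv o F₁) with hu
  have hder : ∀ o, aeval sT (pderiv o FL) = C ((Polynomial.X ^ (k + 1)) ^ d * Polynomial.X ^ k)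
      * u o := by
    intro o
    rw [hF₁, map_add, pderiv_map, map_add]
    have h1 : aeval sT (map Polynomial.C (pderiv o F₀)) = aeval sT (pderiv o F₀) :=
      aeval_map_base (K := K) (L := Polynomial K) sT (pderiv o F₀)
    have h3 : aeval sT (C (Polynomial.X ^ L) * pderiv o F₁) =
        C (Polynomial.X ^ L) * aeval sT (pderiv o F₁) := by
      rw [map_mul, aeval_C]
      rfl
    rw [h1, hder₀, pderiv_C_mul, h3, hu, hL]
    simp only [map_mul, map_pow]
    ring
  -- over the field of rational functions
  set alg := algebraMap (Polynomial K) (RatFunc K) with halg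
  set sL : Option σ → MvPolynomial ι (RatFunc K) := fun o => map alg (sT o) with hsL
  set W₀ : Submodule (RatFunc K) (MvPolynomial ι (RatFunc K)) :=
    restrictTotalDegree ι (RatFunc K) 1 ⊔ Submodule.span (RatFunc K) {sL none} with hW₀
  have hsRdeg : ∀ v, (sR v).totalDegree ≤ 1 := by
    intro v
    rw [hsR]
    refine (totalDegree_add _ _).trans (max_le ?_ ?_)
    · exact (totalDegree_map_le _ _).trans ((mem_restrictTotalDegree _ _ _).1 (hS v))
    · rw [totalDegree_C]; exact Nat.zero_le _
  have hbdeg : (sL none).totalDegree ≤ N := by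
    refine (totalDegree_map_le _ _).trans ?_
    show b.totalDegree ≤ N
    rw [hb]
    refine (totalDegree_add _ _).trans (max_le ?_ ?_)
    · exact (totalDegree_aeval_le _ hsRdeg P).trans hP
    · rw [totalDegree_C]; exact Nat.zero_le _
  have hgood₀ : Good (fun t => N * Nm ι t) 0 W₀ := by
    refine ⟨Submodule.FG.sup (Module.Finite.iff_fg.mp inferInstance)
      (Submodule.fg_span_singleton _), ?_, ?_⟩
    · apply (le_sup_left : restrictTotalDegree ι (RatFunc K) 1 ≤ W₀)
      rw [mem_restrictTotalDegree]; simp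
    · intro t
      rw [pow_zero, one_mul]
      exact finrank_pow_le _ N hN hbdeg t
  obtain ⟨W, hWW₀, hWgood, hWd⟩ := gradient_good' hgood₀ (aeval sL) (by
      intro o
      rw [aeval_X]
      cases o with
      | none => exact (le_sup_right : _ ≤ W₀) (Submodule.mem_span_singleton_self _)
      | some v =>
        apply (le_sup_left : restrictTotalDegree ι (RatFunc K) 1 ≤ W₀)
        rw [mem_restrictTotalDegree]
        exact (totalDegree_map_le _ _).trans (hsRdeg v)) s M _ (hg.map ψ)
    (map ψ F) (by
      obtain ⟨i, hi, hFi⟩ := hFg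
      exact ⟨i, hi, by rw [hFi]⟩)
  have hFLψ : map alg FL = C (ψ lam) * map ψ F := by
    have h1 : map ψ (map alg F') = map alg FL := by
      have h5 : ψ.comp alg = alg.comp (Polynomial.expand K L : Polynomial K →+* Polynomial K) :=
        RingHom.ext hψ
      rw [hFL, MvPolynomial.map_map, MvPolynomial.map_map, h5]
    rw [← h1, hlam, map_mul, map_C]
  have huW : ∀ o, map alg (u o) ∈ W := by
    intro o
    have h1 := W.smul_mem (ψ lam) (hWd o)
    have h2 : ψ lam • aeval sL (pderiv o (map ψ F)) = map alg (aeval sT (pderiv o FL)) := by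
      rw [← aeval_map_map, ← pderiv_map, hFLψ, pderiv_C_mul, map_mul, aeval_C, smul_eq_C_mul]
      rfl
    rw [h2, hder, map_mul, map_C, ← smul_eq_C_mul] at h1
    have hne : alg ((Polynomial.X ^ (k + 1)) ^ d * Polynomial.X ^ k) ≠ 0 := by
      rw [halg, Ne, FaithfulSMul.algebraMap_eq_zero_iff]
      exact mul_ne_zero (pow_ne_zero _ (pow_ne_zero _ Polynomial.X_ne_zero))
        (pow_ne_zero _ Polynomial.X_ne_zero)
    have h3 := W.smul_mem (alg ((Polynomial.X ^ (k + 1)) ^ d * Polynomial.X ^ k))⁻¹ h1
    rwa [smul_smul, inv_mul_cancel₀ hne, one_smul] at h3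
  set W' := spec (O0 K) (φ0 K) (ψ0 K) (φψ K) W with hW'
  have hspecmem : ∀ o, map (Polynomial.evalRingHom (0 : K)) (u o) ∈ W' := by
    intro o
    refine ⟨map (jR K) (u o), ?_, ?_⟩
    · rw [MvPolynomial.map_map, subtype_jR]
      exact huW o
    · rw [MvPolynomial.map_map, φ0_jR]
  have hval : ∀ o, map (Polynomial.evalRingHom (0 : K)) (u o) =
      ((d + 1 : ℕ) : MvPolynomial ι K) *
        map (Polynomial.evalRingHom (0 : K)) (aeval sT (pderiv o (qq P))) * G := by
    intro o
    rw [hu, hu₀]
    simp only [map_add, map_mul, map_natCast, map_C, Polynomial.coe_evalRingHom,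
      Polynomial.eval_X, map_zero, zero_mul, add_zero, hGdef]
  have hd1 : ((d + 1 : ℕ) : K) ≠ 0 := by exact_mod_cast Nat.succ_ne_zero d
  have hscale : ∀ p : MvPolynomial ι K, ((d + 1 : ℕ) : MvPolynomial ι K) * p ∈ W' → p ∈ W' := by
    intro p hp
    have h1 : ((d + 1 : ℕ) : MvPolynomial ι K) * p = ((d + 1 : ℕ) : K) • p := by
      rw [smul_eq_C_mul, map_natCast]
    rw [h1] at hp
    have h3 := W'.smul_mem ((d + 1 : ℕ) : K)⁻¹ hp
    rwa [smul_smul, inv_mul_cancel₀ hd1, one_smul] at h3
  refine ⟨W', G, ?_, spec_good hWgood, hG, ?_, ?_⟩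
  · exact restrict_le_spec (le_sup_left.trans hWW₀)
  · apply hscale
    have h1 := hspecmem none
    rw [hval none] at h1
    have h2 : pderiv none (qq P) = 1 := by
      rw [qq, map_sub, pderiv_X_self]
      have : pderiv none (rename some P) = 0 := by
        apply pderiv_eq_zero_of_notMem_vars
        intro hmem
        have := vars_rename (some : σ → Option σ) P hmem
        simp at this
      rw [this, sub_zero]
    rw [h2, map_one, map_one, mul_one] at h1
    exact h1
  · intro v
    have h1 := hspecmem (some v)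
    rw [hval (some v)] at h1
    have h2 : pderiv (some v) (qq P) = - rename some (pderiv v P) := by
      rw [qq, map_sub, pderiv_rename (Option.some_injective σ), pderiv_X_of_ne (by simp), zero_sub]
    rw [h2, map_neg, hTren, map_neg, map_aeval_base _ (hbase 0)] at h1
    have h3 : (fun v => map (Polynomial.evalRingHom (0 : K)) (sR v)) = S := funext hs0
    rw [h3] at h1
    have h4 : ((d + 1 : ℕ) : MvPolynomial ι K) * -aeval S (pderiv v P) * G =
        ((d + 1 : ℕ) : MvPolynomial ι K) * (-(G * aeval S (pderiv v P))) := by ring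
    rw [h4] at h1
    have h5 := hscale _ h1
    have h6 := W'.neg_mem h5
    rwa [neg_neg] at h6

end Main

/-! ## Consequence for the permanent -/

theorem border_ineq (K : Type*) [Field K] [IsAlgClosed K] [CharZero K] {q h k p : ℕ}
    (hk : 3 ≤ k) (N : ℕ)
    (hN : N = q * (4 * k + h) + h * (2 * k + h + 2) + (3 * k + h + 1) + p)
    (F' : MvPolynomial (Option (Fin N × Fin N)) (Polynomial K))
    (hF : map (Polynomial.evalRingHom (0 : K)) F' ≠ 0)
    (h0 : gs (perN K N) (map (Polynomial.evalRingHom (0 : K)) F') = 0)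
    (F : MvPolynomial (Option (Fin N × Fin N)) (RatFunc K)) (lam : RatFunc K)
    (hlam : map (algebraMap (Polynomial K) (RatFunc K)) F' = C lam * F)
    (s : ℕ) (M : Finset ℕ) (g : ℕ → MvPolynomial (Option (Fin N × Fin N)) (RatFunc K))
    (hg : NSLP s M g) (hFg : ∃ i < s, F = g i) (ℓ : ℕ) (hℓ : N ≤ 2 ^ ℓ) :
    ((k - 1) / 2) ^ (q * (q * (h * k))) ≤ 2 ^ (3 * M.card + ℓ) := by
  classical
  obtain ⟨S, y, hS, hy, hz, hyS⟩ := exists_subst K (q := q) (h := h) (k := k) (p := p)
    (by omega) N hN
  obtain ⟨W, G, hW1, hWgood, hG0, hGW, hGder⟩ := exists_space S hS (perN K N) N (by omega)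
    (totalDegree_perN K N) F' hF h0 F lam hlam s M g hg hFg
  have hcardι : Fintype.card (Pool.Agent.H546R2.SM.Idx q h k) = q * (q * (h * k)) := by
    simp [Pool.Agent.H546R2.SM.Idx, Fintype.card_prod]
  rw [← hcardι]
  refine degree_bound_factor y (k - 1) (by omega) hy hz (3 * M.card) ℓ N hℓ W hW1 hWgood G hG0 hGW
    ?_
  intro v
  obtain ⟨c, u, hcu⟩ := hyS v
  have h1 : G * y v = c • (G * aeval S (pderiv u (perN K N))) := by
    rw [hcu, smul_eq_C_mul]; ring
  rw [h1]
  exact W.smul_mem _ (hGder u)

/-- the inequality in the form needed for the choice of parameters -/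
theorem border_ineq' (K : Type*) [Field K] [IsAlgClosed K] [CharZero K] (N : ℕ)
    (F' : MvPolynomial (Option (Fin N × Fin N)) (Polynomial K))
    (hF : map (Polynomial.evalRingHom (0 : K)) F' ≠ 0)
    (h0 : gs (perN K N) (map (Polynomial.evalRingHom (0 : K)) F') = 0)
    (F : MvPolynomial (Option (Fin N × Fin N)) (RatFunc K)) (lam : RatFunc K)
    (hlam : map (algebraMap (Polynomial K) (RatFunc K)) F' = C lam * F)
    (s : ℕ) (M : Finset ℕ) (g : ℕ → MvPolynomial (Option (Fin N × Fin N)) (RatFunc K))
    (hg : NSLP s M g) (hFg : ∃ i < s, F = g i) (q h k p : ℕ) (hk : 2 ≤ k)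
    (hN : N = q * (4 * k + h) + h * (2 * k + h + 2) + (3 * k + h + 1) + p) :
    (k - 1) ^ (q * (q * (h * k))) ≤ 2 ^ (3 * (M.card + N + N ^ 2 / 8)) := by
  rcases Nat.lt_or_ge k 3 with hk3 | hk3
  · have : k = 2 := by omega
    subst this
    rw [show 2 - 1 = 1 from rfl, one_pow]
    exact Nat.one_le_two_pow
  · have h1 := border_ineq K hk3 N hN F' hF h0 F lam hlam s M g hg hFg N Nat.lt_two_pow_self.le
    have h2 : k - 1 ≤ 4 * ((k - 1) / 2) := by omega
    have h3 : 16 * (q * (q * (h * k))) ≤ N ^ 2 := by
      have h4 : q * (4 * k + h) ≤ N := by omega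
      have h5 : 16 * (h * k) ≤ (4 * k + h) * (4 * k + h) := by
        zify
        nlinarith [sq_nonneg ((4 : ℤ) * k - h)]
      calc 16 * (q * (q * (h * k))) = q * q * (16 * (h * k)) := by ring
        _ ≤ q * q * ((4 * k + h) * (4 * k + h)) := Nat.mul_le_mul_left _ h5
        _ = (q * (4 * k + h)) * (q * (4 * k + h)) := by ring
        _ ≤ N * N := Nat.mul_le_mul h4 h4
        _ = N ^ 2 := by ring
    set D := q * (q * (h * k)) with hD
    calc (k - 1) ^ D ≤ (4 * ((k - 1) / 2)) ^ D := Nat.pow_le_pow_left h2 _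
      _ = 2 ^ (2 * D) * ((k - 1) / 2) ^ D := by
          rw [mul_pow, show (4 : ℕ) = 2 ^ 2 from rfl, ← pow_mul]
      _ ≤ 2 ^ (2 * D) * 2 ^ (3 * M.card + N) := Nat.mul_le_mul_left _ h1
      _ = 2 ^ (2 * D + (3 * M.card + N)) := by rw [← pow_add]
      _ ≤ 2 ^ (3 * (M.card + N + N ^ 2 / 8)) := by
          apply Nat.pow_le_pow_right (by norm_num)
          have h6 : 2 * D ≤ N ^ 2 / 8 := by
            rw [Nat.le_div_iff_mul_le (by norm_num)]
            omega
          omega

end Pool.Agent.H53R8
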