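import Pool.Agent.H53R8.Main

/-! # Approximative complexity of multiples -/

set_option autoImplicit false
set_option linter.unusedSectionVars false

open MvPolynomial Module Finset

namespace Pool.Agent.H53R8

open Pool.Agent.H546R2.SL Pool.Agent.H53R7

/-- base change of rational functions -/
lemma exists_baseChange {K K' : Type*} [Field K] [Field K'] (f : K →+* K') :
    ∃ ψ : RatFunc K →+* RatFunc K', ∀ p : Polynomial K,
      ψ (algebraMap (Polynomial K) (RatFunc K) p) =
        algebraMap (Polynomial K') (RatFunc K') (p.map f) := by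
  have hinj : Function.Injective ((algebraMap (Polynomial K') (RatFunc K')).comp
      (Polynomial.mapRingHom f)) := by
    intro p q hpq
    rw [RingHom.comp_apply, RingHom.comp_apply] at hpq
    have h1 := IsFractionRing.injective (Polynomial K') (RatFunc K') hpq
    exact Polynomial.map_injective f f.injective h1
  exact ⟨IsFractionRing.lift hinj, fun p => IsFractionRing.lift_algebraMap hinj p⟩

/-- clearing denominators -/
lemma exists_clear {K : Type*} [Field K] {σ : Type*} (F : MvPolynomial σ (RatFunc K))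
    (f : MvPolynomial σ K)
    (h : ∀ d, (coeff d F).denom.eval 0 ≠ 0 ∧ (coeff d F).eval (RingHom.id K) 0 = coeff d f) :
    ∃ (D : Polynomial K) (F' : MvPolynomial σ (Polynomial K)), D.eval 0 ≠ 0 ∧
      map (algebraMap (Polynomial K) (RatFunc K)) F' =
        C (algebraMap (Polynomial K) (RatFunc K) D) * F ∧
      map (Polynomial.evalRingHom 0) F' = C (D.eval 0) * f := by
  classical
  set D : Polynomial K := ∏ d ∈ F.support, (coeff d F).denom with hD
  set F' : MvPolynomial σ (Polynomial K) := ∑ d ∈ F.support,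
    monomial d ((coeff d F).num * ∏ e ∈ F.support.erase d, (coeff e F).denom) with hF'
  have hcoeff : ∀ d, coeff d F' = (coeff d F).num * ∏ e ∈ F.support.erase d, (coeff e F).denom := by
    intro d
    rw [hF', coeff_sum]
    simp only [coeff_monomial]
    rw [Finset.sum_ite_eq']
    split_ifs with hd
    · rfl
    · rw [MvPolynomial.notMem_support_iff] at hd
      rw [hd, RatFunc.num_zero, zero_mul]
  have hden : ∀ d, D = (coeff d F).denom * ∏ e ∈ F.support.erase d, (coeff e F).denom := by
    intro d
    by_cases hd : d ∈ F.support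
    · exact (Finset.mul_prod_erase F.support (fun d => (coeff d F).denom) hd).symm
    · have h1 := MvPolynomial.notMem_support_iff.1 hd
      rw [h1, RatFunc.denom_zero, one_mul, Finset.erase_eq_of_notMem hd]
  refine ⟨D, F', ?_, ?_, ?_⟩
  · rw [hD, Polynomial.eval_prod]
    exact Finset.prod_ne_zero_iff.2 fun d _ => (h d).1
  · ext1 d
    rw [coeff_map, coeff_C_mul, hcoeff, hden d, map_mul, map_mul]
    have h1 : algebraMap (Polynomial K) (RatFunc K) (coeff d F).num =
        algebraMap (Polynomial K) (RatFunc K) (coeff d F).denom * coeff d F := by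
      have h2 := RatFunc.num_div_denom (coeff d F)
      have h3 : algebraMap (Polynomial K) (RatFunc K) (coeff d F).denom ≠ 0 := by
        rw [Ne, FaithfulSMul.algebraMap_eq_zero_iff]
        exact RatFunc.denom_ne_zero _
      rw [div_eq_iff h3] at h2
      rw [h2, mul_comm]
    rw [h1]
    ring
  · ext1 d
    rw [coeff_map, coeff_C_mul, hcoeff, ← (h d).2, RatFunc.eval, hden d]
    have h1 := (h d).1
    simp only [Polynomial.coe_evalRingHom, Polynomial.eval_mul, Polynomial.eval₂_id]
    field_simp

theorem mult_border_ineq (K : Type*) [Field K] [IsAlgClosed K] [CharZero K] (n ρ N : ℕ)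
    (hn : 0 < n) (hN : N = 3 * n + ρ)
    (F' : MvPolynomial (Fin N × Fin N) (Polynomial K)) (Q : MvPolynomial (Fin N × Fin N) K)
    (hQ : Q ≠ 0) (hF' : map (Polynomial.evalRingHom (0 : K)) F' = Q * perN K N)
    (F : MvPolynomial (Fin N × Fin N) (RatFunc K)) (lam : RatFunc K)
    (hlam : map (algebraMap (Polynomial K) (RatFunc K)) F' = C lam * F)
    (s : ℕ) (M : Finset ℕ) (g : ℕ → MvPolynomial (Fin N × Fin N) (RatFunc K)) (hg : NSLP s M g)
    (hFg : ∃ i < s, F = g i) (q h k p : ℕ) (hk : 2 ≤ k)
    (hn' : n = q * (4 * k + h) + h * (2 * k + h + 2) + (3 * k + h + 1) + p) :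
    (k - 1) ^ (q * (q * (h * k))) ≤ 2 ^ (3 * (M.card + n + n ^ 2 / 8)) := by
  classical
  have : NeZero (n : K) := ⟨by exact_mod_cast hn.ne'⟩
  obtain ⟨ω, hω₀⟩ := IsAlgClosed.exists_root (Polynomial.cyclotomic n K)
    (Polynomial.degree_cyclotomic_pos n K hn).ne'
  have hω : IsPrimitiveRoot ω n := Polynomial.isRoot_cyclotomic_iff.1 hω₀
  let e : Fin N ≃ ((Fin n ⊕ (Fin n ⊕ Fin n)) ⊕ Fin ρ) :=
    Fintype.equivOfCardEq (by simp only [Fintype.card_fin, Fintype.card_sum]; omega)
  set m₀ : Fin N × Fin N → MvPolynomial (Option (Fin n × Fin n)) K :=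
    fun v => bigM n ρ ω (e v.1) (e v.2) with hm₀
  obtain ⟨x, hx⟩ : ∃ x : Fin N × Fin N → K, eval x Q ≠ 0 := by
    by_contra hcon
    push Not at hcon
    apply hQ
    apply MvPolynomial.funext
    intro x
    rw [hcon x, map_zero]
  set w : Fin N × Fin N → K := fun v => x v - eval 0 (m₀ v) with hw
  set m : Fin N × Fin N → MvPolynomial (Option (Fin n × Fin n)) (Polynomial K) := fun v =>
    map Polynomial.C (m₀ v) + C (Polynomial.X * Polynomial.C (w v)) with hm
  have hs0 : ∀ v, map (Polynomial.evalRingHom (0 : K)) (m v) = m₀ v := by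
    intro v
    rw [hm]
    simp only [map_add, map_C, Polynomial.coe_evalRingHom, Polynomial.eval_mul,
      Polynomial.eval_X, zero_mul, map_zero, add_zero]
    have : (Polynomial.evalRingHom (0 : K)).comp Polynomial.C = RingHom.id K := by
      ext c; simp
    rw [MvPolynomial.map_map, this, map_id]
  have hbase : ∀ (t : K) (c : K), Polynomial.evalRingHom t (algebraMap K (Polynomial K) c)
      = algebraMap K K c := by
    intro t c
    rw [Polynomial.algebraMap_eq]; simp
  have hE : aeval m Q ≠ 0 := by
    intro h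
    apply hx
    have h1 := congrArg (map (Polynomial.evalRingHom (1 : K))) h
    rw [map_aeval_base _ (hbase 1), map_zero] at h1
    have h2 := congrArg (eval (0 : Option (Fin n × Fin n) → K)) h1
    rw [map_zero] at h2
    rw [← h2]
    have h3 : (eval (0 : Option (Fin n × Fin n) → K)).comp
        ((aeval fun v => map (Polynomial.evalRingHom (1 : K)) (m v) :
        MvPolynomial (Fin N × Fin N) K →ₐ[K] MvPolynomial (Option (Fin n × Fin n)) K) :
          MvPolynomial (Fin N × Fin N) K →+* MvPolynomial (Option (Fin n × Fin n)) K)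
        = eval x := by
      apply MvPolynomial.ringHom_ext
      · intro c; simp
      · intro v
        simp only [RingHom.comp_apply, RingHom.coe_coe, aeval_X, eval_X]
        rw [hm]
        simp only [map_add, map_C, Polynomial.coe_evalRingHom, Polynomial.eval_mul,
          Polynomial.eval_X, one_mul, Polynomial.eval_C, eval_C]
        have : (Polynomial.evalRingHom (1 : K)).comp Polynomial.C = RingHom.id K := by
          ext c; simp
        rw [MvPolynomial.map_map, this, map_id, hw]
        simp
    exact (DFunLike.congr_fun h3 Q).symm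
  obtain ⟨k₀, Q', hQ', hQ'0⟩ := exists_eps _ hE
  set Φ := aeval m (perN K N) with hΦ
  have hΦ0 : map (Polynomial.evalRingHom (0 : K)) Φ =
      C (-((n.factorial : K) ^ 2 * ∏ c : Fin n, ω ^ (c : ℕ))) * qq (perN K n) := by
    rw [hΦ, map_aeval_base _ (hbase 0), funext hs0, aeval_perN]
    have h1 : (Matrix.of fun i j => m₀ (i, j)) = (bigM n ρ ω).submatrix e e := by
      ext1 i j
      rfl
    rw [h1, permanent_reindex, permanent_bigM ρ hn ω hω]
  have hκ : (-((n.factorial : K) ^ 2 * ∏ c : Fin n, ω ^ (c : ℕ))) ≠ 0 := by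
    rw [neg_ne_zero]
    refine mul_ne_zero (pow_ne_zero _ (by exact_mod_cast n.factorial_ne_zero)) ?_
    refine Finset.prod_ne_zero_iff.2 fun c _ => pow_ne_zero _ ?_
    exact hω.ne_zero hn.ne'
  have hqq : qq (perN K n) ≠ 0 := by
    intro h0
    have h1 := congrArg (gs (0 : MvPolynomial (Fin n × Fin n) K)) h0
    have h2 := congrArg (gs (1 : MvPolynomial (Fin n × Fin n) K)) h0
    rw [qq, map_sub, gs_none, gs_rename, map_zero] at h1 h2
    have h3 : (0 : MvPolynomial (Fin n × Fin n) K) = 1 := by
      rw [sub_eq_zero] at h1 h2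
      rw [h1, ← h2]
    exact zero_ne_one h3
  set alg := algebraMap (Polynomial K) (RatFunc K) with halg
  set mL : Fin N × Fin N → MvPolynomial (Option (Fin n × Fin n)) (RatFunc K) :=
    fun v => map alg (m v) with hmL
  have hmLaff : ∀ v, mL v ∈ Submodule.span (RatFunc K)
      ({1} ∪ Set.range (X : Option (Fin n × Fin n) → _)) := by
    intro v
    have h1 : Aff (m v) := ((aff_bigM n ρ ω _ _).map _).add (aff_C _)
    exact h1.map alg
  -- the substitution `ε ↦ ε ^ L`
  set L := k₀ + 1 with hL
  obtain ⟨ψ, hψ⟩ := exists_expand K L (by omega)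
  obtain ⟨F₁, hF₁⟩ := exists_rest F' L
  set FL := map (Polynomial.expand K L : Polynomial K →+* Polynomial K) F' with hFL
  have hprog := nslp_subst mL hmLaff s M _ (hg.map ψ)
  have hFLψ : map alg FL = C (ψ lam) * map ψ F := by
    have h1 : map ψ (map alg F') = map alg FL := by
      have h5 : ψ.comp alg = alg.comp (Polynomial.expand K L : Polynomial K →+* Polynomial K) :=
        RingHom.ext hψ
      rw [hFL, MvPolynomial.map_map, MvPolynomial.map_map, h5]
    rw [← h1, hlam, map_mul, map_C]
  have hX : alg (Polynomial.X ^ k₀) ≠ 0 := by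
    rw [halg, Ne, FaithfulSMul.algebraMap_eq_zero_iff]
    exact pow_ne_zero _ Polynomial.X_ne_zero
  have hGm : aeval m FL = C (Polynomial.X ^ k₀) * (Q' * Φ + C Polynomial.X * aeval m F₁) := by
    have h1 : aeval m (map Polynomial.C (Q * perN K N)) = aeval m (Q * perN K N) :=
      aeval_map_base (K := K) (L := Polynomial K) m (Q * perN K N)
    have h3 : aeval m (C (Polynomial.X ^ L) * F₁) = C (Polynomial.X ^ L) * aeval m F₁ := by
      rw [map_mul, aeval_C]
      rfl
    rw [hF₁, hF', map_add, h1, h3, map_mul, hQ', ← hΦ, hL, pow_succ, C_mul]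
    ring
  refine border_ineq' K n (Q' * Φ + C Polynomial.X * aeval m F₁) ?_ ?_
    (aeval mL (map ψ F)) ((alg (Polynomial.X ^ k₀))⁻¹ * ψ lam) ?_
    s M _ hprog ?_ q h k p hk hn'
  · rw [map_add, map_mul, map_mul, map_C, Polynomial.coe_evalRingHom, Polynomial.eval_X, map_zero,
      zero_mul, add_zero, hΦ0]
    exact mul_ne_zero hQ'0 (mul_ne_zero (by rwa [Ne, C_eq_zero]) hqq)
  · rw [map_add, map_mul, map_mul, map_C, Polynomial.coe_evalRingHom, Polynomial.eval_X, map_zero,
      zero_mul, add_zero, hΦ0, map_mul, map_mul, gs_qq, mul_zero, mul_zero]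
  · have h1 : map alg (aeval m FL) = C (ψ lam) * aeval mL (map ψ F) := by
      rw [← aeval_map_map, hFLψ, map_mul, aeval_C]
      rfl
    rw [hGm, map_mul (map alg) (C (Polynomial.X ^ k₀)), map_C] at h1
    rw [C_mul, mul_assoc, ← h1, ← mul_assoc, ← C_mul, inv_mul_cancel₀ hX, C_1, one_mul]
  · obtain ⟨i, hi, hFi⟩ := hFg
    exact ⟨i, hi, by rw [hFi]⟩

end Pool.Agent.H53R8
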