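import Pool.Agent.H53R8.Border2
import Pool.Agent.H53R7.Final

/-! # Final statements -/

set_option autoImplicit false
set_option linter.unusedSectionVars false

open MvPolynomial Module Finset

namespace Pool.Agent.H53R8

open Pool.Agent.H546R2.SL Pool.Agent.H53R7

/-- the inequality between the parameters -/
def Ineq (m n : ℕ) : Prop := ∀ q h k p : ℕ, 2 ≤ k →
  n = q * (4 * k + h) + h * (2 * k + h + 2) + (3 * k + h + 1) + p →
  (k - 1) ^ (q * (q * (h * k))) ≤ 2 ^ (3 * (m + n + n ^ 2 / 8))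

lemma numeric96 (ε : ℝ) (hε : 0 < ε) : ∃ n₀ : ℕ, ∀ n ≥ n₀, ∀ m : ℕ, Ineq m n →
      (1 / 96 - ε) * (n : ℝ) ^ 2 * Real.logb 2 n ≤ m := by
  obtain ⟨N₀, hN₀⟩ := Pool.Agent.H632R3.BNL.numeric (ε / 2) (by positivity)
  obtain ⟨a, ha⟩ := exists_nat_ge (4 / ε)
  refine ⟨max (max N₀ 1) (2 ^ a), fun n hn m hm => ?_⟩
  have hN1 : N₀ ≤ n := (le_max_left _ _).trans ((le_max_left _ _).trans hn)
  have hN2 : 1 ≤ n := (le_max_right _ _).trans ((le_max_left _ _).trans hn)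
  have hN3 : 2 ^ a ≤ n := (le_max_right _ _).trans hn
  have hNr : (1 : ℝ) ≤ n := by exact_mod_cast hN2
  have h1 := hN₀ n hN1 (m + n + n ^ 2 / 8) (fun q h k p hk hNe => hm q h k p hk hNe)
  have h2 : (4 / ε) ≤ Real.logb 2 n := by
    refine ha.trans ?_
    rw [Real.le_logb_iff_rpow_le (by norm_num) (by linarith)]
    rw [Real.rpow_natCast]
    exact_mod_cast hN3
  have h3 : (4 : ℝ) ≤ ε * Real.logb 2 n := by
    rw [div_le_iff₀ hε] at h2
    linarith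
  have h4 : ((m + n + n ^ 2 / 8 : ℕ) : ℝ) ≤ m + 2 * (n : ℝ) ^ 2 := by
    have h5 : ((n ^ 2 / 8 : ℕ) : ℝ) ≤ (n : ℝ) ^ 2 := by
      have : n ^ 2 / 8 ≤ n ^ 2 := Nat.div_le_self _ _
      exact_mod_cast this
    have h6 : (n : ℝ) ≤ (n : ℝ) ^ 2 := by nlinarith
    push_cast at h5 ⊢
    linarith
  have h7 : 2 * (n : ℝ) ^ 2 ≤ (ε / 2) * (n : ℝ) ^ 2 * Real.logb 2 n := by
    have : 0 ≤ (n : ℝ) ^ 2 := by positivity
    nlinarith
  have h8 : (1 / 96 - ε) * (n : ℝ) ^ 2 * Real.logb 2 n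
      = (1 / 96 - ε / 2) * (n : ℝ) ^ 2 * Real.logb 2 n
        - (ε / 2) * (n : ℝ) ^ 2 * Real.logb 2 n := by ring
  rw [h8]
  linarith

lemma numeric864 (ε : ℝ) (hε : 0 < ε) : ∃ N₀ : ℕ, ∀ N ≥ N₀, ∀ m : ℕ,
      (∀ n ρ, 0 < n → N = 3 * n + ρ → Ineq m n) →
      (1 / 864 - ε) * (N : ℝ) ^ 2 * Real.logb 2 N ≤ m := by
  set ε₁ : ℝ := min ε (1 / 96) with hε₁
  have h01 : 0 < ε₁ := lt_min hε (by norm_num)
  have h02 : ε₁ ≤ ε := min_le_left _ _
  have h03 : ε₁ ≤ 1 / 96 := min_le_right _ _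
  obtain ⟨n₀, hn₀⟩ := numeric96 ε₁ h01
  obtain ⟨a, ha⟩ := exists_nat_ge (2 / ε)
  refine ⟨max (3 * n₀ + 10) (2 ^ a), fun N hN m hm => ?_⟩
  have hN1 : 3 * n₀ + 10 ≤ N := (le_max_left _ _).trans hN
  have hN2 : 2 ^ a ≤ N := (le_max_right _ _).trans hN
  set n := N / 3 with hn
  obtain ⟨ρ, hρ⟩ : ∃ ρ, N = 3 * n + ρ := ⟨N % 3, by omega⟩
  have hρ2 : ρ ≤ 2 := by omega
  have hn1 : n₀ ≤ n := by omega
  have hn3 : 3 ≤ n := by omega
  have h1 := hn₀ n hn1 m (hm n ρ (by omega) hρ)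
  have hnr : (3 : ℝ) ≤ n := by exact_mod_cast hn3
  have hNr : (N : ℝ) = 3 * n + ρ := by rw [hρ]; push_cast; ring
  have hρr : (ρ : ℝ) ≤ 2 := by exact_mod_cast hρ2
  have hρ0 : (0 : ℝ) ≤ ρ := Nat.cast_nonneg _
  have hN0 : (9 : ℝ) ≤ N := by linarith
  set ℓN := Real.logb 2 N with hℓN
  set ℓn := Real.logb 2 n with hℓn
  -- the logarithms
  have h2 : 2 / ε ≤ ℓN := by
    refine ha.trans ?_
    rw [hℓN, Real.le_logb_iff_rpow_le (by norm_num) (by linarith), Real.rpow_natCast]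
    exact_mod_cast hN2
  have h3 : ℓN - 2 ≤ ℓn := by
    have h4 : (N : ℝ) ≤ 4 * n := by linarith
    have h5 : ℓN ≤ Real.logb 2 (4 * n) := Real.logb_le_logb_of_le (by norm_num) (by linarith) h4
    have h6 : Real.logb 2 (4 * n) = 2 + ℓn := by
      rw [Real.logb_mul (by norm_num) (by linarith), show (4 : ℝ) = 2 ^ (2 : ℝ) by norm_num,
        Real.logb_rpow (by norm_num) (by norm_num)]
    linarith
  have h4 : ℓN ≤ N := by
    rw [hℓN, Real.logb_le_iff_le_rpow (by norm_num) (by linarith), Real.rpow_natCast]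
    exact_mod_cast Nat.lt_two_pow_self.le
  have h5 : 0 ≤ ℓn := Real.logb_nonneg (by norm_num) (by linarith)
  have h5' : 2 ≤ ℓN := by
    rw [hℓN, Real.le_logb_iff_rpow_le (by norm_num) (by linarith)]
    norm_num
    linarith
  -- `n ^ 2 ℓn ≥ N ^ 2 ℓN / 9 - N ^ 2`
  have h6 : (N : ℝ) ^ 2 - 5 * N ≤ 9 * (n : ℝ) ^ 2 := by
    rw [hNr]; nlinarith
  have h7 : (N : ℝ) ^ 2 * ℓN - 9 * (N : ℝ) ^ 2 ≤ 9 * ((n : ℝ) ^ 2 * ℓn) := by
    have h8 : 9 * (n : ℝ) ^ 2 * (ℓN - 2) ≤ 9 * (n : ℝ) ^ 2 * ℓn :=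
      mul_le_mul_of_nonneg_left h3 (by positivity)
    have h9 : ((N : ℝ) ^ 2 - 5 * N) * (ℓN - 2) ≤ 9 * (n : ℝ) ^ 2 * (ℓN - 2) :=
      mul_le_mul_of_nonneg_right h6 (by linarith)
    have h10 : (N : ℝ) * ℓN ≤ (N : ℝ) ^ 2 := by nlinarith
    nlinarith
  have h8 : (1 / 96 - ε₁) * ((N : ℝ) ^ 2 * ℓN - 9 * (N : ℝ) ^ 2) ≤
      9 * ((1 / 96 - ε₁) * (n : ℝ) ^ 2 * ℓn) := by
    have := mul_le_mul_of_nonneg_left h7 (by linarith : (0 : ℝ) ≤ 1 / 96 - ε₁)
    linarith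
  have h9 : (2 : ℝ) ≤ ε * ℓN := by
    rw [div_le_iff₀ hε] at h2
    linarith
  have h10 : 2 * (N : ℝ) ^ 2 ≤ ε * ((N : ℝ) ^ 2 * ℓN) := by
    have : (0 : ℝ) ≤ (N : ℝ) ^ 2 := by positivity
    nlinarith
  have h11 : ε₁ * ((N : ℝ) ^ 2 * ℓN) ≤ ε * ((N : ℝ) ^ 2 * ℓN) :=
    mul_le_mul_of_nonneg_right h02 (by positivity)
  have h12 : 0 ≤ (N : ℝ) ^ 2 := by positivity
  nlinarith


/-- base change of the data of an approximate computation -/
lemma change_data {K K' : Type*} [Field K] [Field K'] (f : K →+* K') {σ : Type*}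
    (F : MvPolynomial σ (RatFunc K)) (G : MvPolynomial σ K)
    (h : ∀ d, (coeff d F).denom.eval 0 ≠ 0 ∧ (coeff d F).eval (RingHom.id K) 0 = coeff d G) :
    ∃ (ψ : RatFunc K →+* RatFunc K') (c : K') (F' : MvPolynomial σ (Polynomial K'))
      (lam : RatFunc K'), c ≠ 0 ∧
      map (algebraMap (Polynomial K') (RatFunc K')) F' = C lam * map ψ F ∧
      map (Polynomial.evalRingHom 0) F' = C c * map f G := by
  obtain ⟨ψ, hψ⟩ := exists_baseChange f
  obtain ⟨D, F', hD, h1, h2⟩ := exists_clear F G h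
  refine ⟨ψ, f (D.eval 0), map (Polynomial.mapRingHom f) F',
    ψ (algebraMap (Polynomial K) (RatFunc K) D), ?_, ?_, ?_⟩
  · intro h0
    exact hD (f.injective (by rw [h0, map_zero]))
  · have h3 := congrArg (map ψ) h1
    rw [MvPolynomial.map_map, map_mul, map_C] at h3
    rw [← h3, MvPolynomial.map_map]
    congr 1
    have h5 : (algebraMap (Polynomial K') (RatFunc K')).comp (Polynomial.mapRingHom f) =
        ψ.comp (algebraMap (Polynomial K) (RatFunc K)) := RingHom.ext fun p => (hψ p).symm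
    rw [h5]
  · have h3 := congrArg (map f) h2
    rw [MvPolynomial.map_map, map_mul, map_C] at h3
    rw [← h3, MvPolynomial.map_map]
    have h5 : (Polynomial.evalRingHom 0).comp (Polynomial.mapRingHom f) =
        f.comp (Polynomial.evalRingHom 0) := by
      apply RingHom.ext
      intro p
      show (p.map f).eval 0 = f (p.eval 0)
      rw [Polynomial.eval_map, ← map_zero f, Polynomial.eval₂_at_apply]
    rw [h5]

/-- **Approximate complexity of multiples of the permanent.** -/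
theorem multiples_border (ε : ℝ) (hε : 0 < ε) : ∃ N₀ : ℕ, ∀ (K : Type*) [Field K] [CharZero K],
    ∀ N ≥ N₀, ∀ Q : MvPolynomial (Fin N × Fin N) K, Q ≠ 0 →
      ∀ F : MvPolynomial (Fin N × Fin N) (RatFunc K),
      (∀ d, (coeff d F).denom.eval 0 ≠ 0 ∧
        (coeff d F).eval (RingHom.id K) 0 = coeff d (Q * perN K N)) →
      ∀ (s : ℕ) (M : Finset ℕ) (g : ℕ → MvPolynomial (Fin N × Fin N) (RatFunc K)), NSLP s M g →
      (∃ i < s, F = g i) →
      (1 / 864 - ε) * (N : ℝ) ^ 2 * Real.logb 2 N ≤ M.card := by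
  obtain ⟨N₀, hN₀⟩ := numeric864 ε hε
  refine ⟨N₀, fun K _ _ N hN Q hQ F hF s M g hg hFg => hN₀ N hN _ fun n ρ hn hNn => ?_⟩
  intro q h k p hk hn'
  obtain ⟨ψ, c, F', lam, hc, h1, h2⟩ := change_data (algebraMap K (AlgebraicClosure K)) F _ hF
  refine mult_border_ineq (AlgebraicClosure K) n ρ N hn hNn F'
    (C c * map (algebraMap K (AlgebraicClosure K)) Q) ?_ ?_ (map ψ F) lam h1 s M _ (hg.map ψ) ?_
    q h k p hk hn'
  · refine mul_ne_zero (by rwa [Ne, C_eq_zero]) ?_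
    intro h0
    apply hQ
    apply map_injective _ (algebraMap K (AlgebraicClosure K)).injective
    rw [h0, map_zero]
  · rw [h2, map_mul, map_perN, mul_assoc]
  · obtain ⟨i, hi, hFi⟩ := hFg
    exact ⟨i, hi, by rw [hFi]⟩

/-- **Approximate complexity of polynomials vanishing on the graph of the permanent.** -/
theorem graph_border (ε : ℝ) (hε : 0 < ε) : ∃ N₀ : ℕ, ∀ (K : Type*) [Field K] [CharZero K],
    ∀ N ≥ N₀, ∀ G : MvPolynomial (Option (Fin N × Fin N)) K, G ≠ 0 → gs (perN K N) G = 0 →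
      ∀ F : MvPolynomial (Option (Fin N × Fin N)) (RatFunc K),
      (∀ d, (coeff d F).denom.eval 0 ≠ 0 ∧ (coeff d F).eval (RingHom.id K) 0 = coeff d G) →
      ∀ (s : ℕ) (M : Finset ℕ) (g : ℕ → MvPolynomial (Option (Fin N × Fin N)) (RatFunc K)),
      NSLP s M g → (∃ i < s, F = g i) →
      (1 / 96 - ε) * (N : ℝ) ^ 2 * Real.logb 2 N ≤ M.card := by
  obtain ⟨N₀, hN₀⟩ := numeric96 ε hε
  refine ⟨N₀, fun K _ _ N hN G hG hG0 F hF s M g hg hFg => hN₀ N hN _ ?_⟩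
  intro q h k p hk hn'
  obtain ⟨ψ, c, F', lam, hc, h1, h2⟩ := change_data (algebraMap K (AlgebraicClosure K)) F _ hF
  refine border_ineq' (AlgebraicClosure K) N F' ?_ ?_ (map ψ F) lam h1 s M _ (hg.map ψ) ?_
    q h k p hk hn'
  · rw [h2]
    refine mul_ne_zero (by rwa [Ne, C_eq_zero]) ?_
    intro h0
    apply hG
    apply map_injective _ (algebraMap K (AlgebraicClosure K)).injective
    rw [h0, map_zero]
  · rw [h2, map_mul, ← map_perN (algebraMap K (AlgebraicClosure K)), ← map_gs, hG0, map_zero,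
      mul_zero]
  · obtain ⟨i, hi, hFi⟩ := hFg
    exact ⟨i, hi, by rw [hFi]⟩

end Pool.Agent.H53R8
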