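import Mathlib

/-! # A matrix with permanent `c (y * t + per Z * u)` -/

set_option autoImplicit false
set_option linter.unusedSectionVars false

open Finset Matrix Equiv

namespace Pool.Agent.H53R8

section Block

variable {R : Type*} [CommRing R] {m n : Type*} [Fintype m] [Fintype n] [DecidableEq m]
  [DecidableEq n]

lemma permanent_block (A : Matrix m m R) (B : Matrix m n R) (D : Matrix n n R) :
    (Matrix.fromBlocks A B 0 D).permanent = A.permanent * D.permanent := by
  classical
  unfold permanent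
  convert Eq.symm <|
    sum_subset (M := R) (subset_univ ((Perm.sumCongrHom m n).range : Set (Perm (m ⊕ n))).toFinset) ?_
  · simp_rw [sum_mul_sum, ← sum_product', univ_product_univ]
    refine sum_nbij (fun σ ↦ σ.fst.sumCongr σ.snd) ?_ ?_ ?_ ?_
    · intro σ₁₂ _
      rw [Set.mem_toFinset]
      exact ⟨σ₁₂, rfl⟩
    · intro σ₁ _ σ₂ _
      dsimp only
      intro h
      have h2 : ∀ x, Perm.sumCongr σ₁.fst σ₁.snd x = Perm.sumCongr σ₂.fst σ₂.snd x :=
        DFunLike.congr_fun h
      simp only [Sum.map_inr, Sum.map_inl, Perm.sumCongr_apply, Sum.forall, Sum.inl.injEq,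
        Sum.inr.injEq] at h2
      ext x
      · exact h2.left x
      · exact h2.right x
    · intro σ hσ
      rw [mem_coe, Set.mem_toFinset] at hσ
      obtain ⟨σ₁₂, hσ₁₂⟩ := hσ
      use σ₁₂
      rw [← hσ₁₂]
      simp
    · simp only [forall_prop_of_true, Prod.forall, mem_univ]
      intro σ₁ σ₂
      rw [Fintype.prod_sum_type]
      simp_rw [Equiv.sumCongr_apply, Sum.map_inr, Sum.map_inl, fromBlocks_apply₁₁,
        fromBlocks_apply₂₂]
  · rintro σ - hσn
    have h1 : ¬∀ x, ∃ y, Sum.inl y = σ (Sum.inl x) := by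
      rw [Set.mem_toFinset] at hσn
      simpa only [Set.MapsTo, Set.mem_range, forall_exists_index, forall_apply_eq_imp_iff] using
        mt Perm.mem_sumCongrHom_range_of_perm_mapsTo_inl hσn
    obtain ⟨a, ha⟩ := not_forall.mp h1
    rcases hx : σ (Sum.inl a) with a2 | b
    · have hn := (not_exists.mp ha) a2
      exact absurd hx.symm hn
    · rw [Finset.prod_eq_zero (Finset.mem_univ (Sum.inl a))]
      rw [hx, fromBlocks_apply₂₁, Matrix.zero_apply]

lemma permanent_block' (A : Matrix m m R) (B : Matrix n m R) (D : Matrix n n R) :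
    (Matrix.fromBlocks A 0 B D).permanent = A.permanent * D.permanent := by
  rw [← permanent_transpose, fromBlocks_transpose, transpose_zero, permanent_block,
    permanent_transpose, permanent_transpose]

/-- reindexing -/
lemma permanent_reindex {m' : Type*} [Fintype m'] [DecidableEq m'] (e : m' ≃ m)
    (A : Matrix m m R) : (A.submatrix e e).permanent = A.permanent := by
  unfold permanent
  apply Fintype.sum_equiv (Equiv.permCongr e)
  intro σ
  apply Fintype.prod_equiv e
  intro i
  simp [Matrix.submatrix_apply]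

lemma permanent_rows (A : Matrix m m R) : A.permanent = ∑ σ : Perm m, ∏ i, A i (σ i) := by
  rw [← permanent_transpose]
  rfl

lemma permanent_map {R' : Type*} [CommRing R'] (f : R →+* R') (A : Matrix m m R) :
    (A.map f).permanent = f A.permanent := by
  unfold permanent
  rw [map_sum]
  refine Finset.sum_congr rfl fun σ _ => ?_
  rw [map_prod]
  rfl

lemma permanent_allcols (a : m → R) :
    (Matrix.of fun _ c : m => a c).permanent = (Fintype.card m).factorial * ∏ c, a c := by
  unfold permanent
  simp [Matrix.of_apply, Finset.card_univ, Fintype.card_perm]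

end Block

section Poly

variable {R : Type*} [CommRing R] [IsDomain R] {ι κ : Type*} [Fintype ι] [Fintype κ]
  [DecidableEq ι] [DecidableEq κ]

/-- rows `inl i` are `A i`, rows `inr k` are `W k` -/
def rowsM (A : ι → ι ⊕ κ → R) (W : κ → ι ⊕ κ → R) : Matrix (ι ⊕ κ) (ι ⊕ κ) R :=
  Matrix.of fun r c => r.elim (fun i => A i c) fun k => W k c

/-- the main extraction lemma -/
lemma permanent_split (A B : ι → ι ⊕ κ → R) (W : κ → ι ⊕ κ → R) (ω : R)
    (hω : ∀ s, 0 < s → s < Fintype.card ι → ω ^ s ≠ 1) (hι : 0 < Fintype.card ι)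
    (τ : Perm (ι ⊕ κ)) (hA : ∀ i c, A i (τ c) = A i c) (hB : ∀ i c, B i (τ c) = ω * B i c)
    (hW : ∀ k c, W k (τ c) = W k c) :
    (rowsM (fun i c => A i c + B i c) W).permanent =
      (rowsM A W).permanent + (rowsM B W).permanent := by
  classical
  set n := Fintype.card ι with hn
  -- the polynomial
  set q : Polynomial R := ∑ σ : Perm (ι ⊕ κ),
    (∏ i : ι, (Polynomial.C (B i (σ (Sum.inl i))) * Polynomial.X +
      Polynomial.C (A i (σ (Sum.inl i))))) * Polynomial.C (∏ k : κ, W k (σ (Sum.inr k))) with hq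
  have hprod : ∀ (A' : ι → ι ⊕ κ → R) , (rowsM A' W).permanent = ∑ σ : Perm (ι ⊕ κ),
      (∏ i : ι, A' i (σ (Sum.inl i))) * ∏ k : κ, W k (σ (Sum.inr k)) := by
    intro A'
    rw [permanent_rows]
    refine Finset.sum_congr rfl fun σ _ => ?_
    rw [Fintype.prod_sum_type]
    rfl
  have heval : ∀ x : R, q.eval x = (rowsM (fun i c => A i c + x * B i c) W).permanent := by
    intro x
    rw [hprod, hq, Polynomial.eval_finsetSum]
    refine Finset.sum_congr rfl fun σ _ => ?_
    rw [Polynomial.eval_mul, Polynomial.eval_C, Polynomial.eval_prod]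
    congr 1
    refine Finset.prod_congr rfl fun i _ => ?_
    simp
    ring
  have hnat : ∀ σ : Perm (ι ⊕ κ), (∏ i : ι, (Polynomial.C (B i (σ (Sum.inl i))) * Polynomial.X +
      Polynomial.C (A i (σ (Sum.inl i))))).natDegree ≤ n := by
    intro σ
    refine (Polynomial.natDegree_prod_le _ _).trans ?_
    have h1 : ∀ i ∈ (Finset.univ : Finset ι), (Polynomial.C (B i (σ (Sum.inl i))) * Polynomial.X +
          Polynomial.C (A i (σ (Sum.inl i)))).natDegree ≤ 1 :=
      fun i _ => Polynomial.natDegree_linear_le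
    refine (Finset.sum_le_sum h1).trans ?_
    simp [hn]
  have hqdeg : q.natDegree ≤ n := by
    rw [hq]
    refine Polynomial.natDegree_sum_le_of_forall_le _ _ fun σ _ => ?_
    refine (Polynomial.natDegree_mul_C_le _ _).trans (hnat σ)
  have hcoeffn : q.coeff n = (rowsM B W).permanent := by
    rw [hprod, hq, Polynomial.finsetSum_coeff]
    refine Finset.sum_congr rfl fun σ _ => ?_
    rw [Polynomial.coeff_mul_C]
    congr 1
    have h1 := Polynomial.coeff_prod_of_natDegree_le (Finset.univ : Finset ι)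
      (fun i => Polynomial.C (B i (σ (Sum.inl i))) * Polynomial.X +
        Polynomial.C (A i (σ (Sum.inl i)))) 1 (fun i _ => Polynomial.natDegree_linear_le)
    rw [Finset.card_univ, mul_one] at h1
    rw [hn, h1]
    refine Finset.prod_congr rfl fun i _ => ?_
    simp
  have hcoeff0 : q.coeff 0 = (rowsM A W).permanent := by
    rw [Polynomial.coeff_zero_eq_eval_zero, heval]
    congr 2
    funext i c
    simp
  -- invariance
  have hinv : q.comp (Polynomial.C ω * Polynomial.X) = q := by
    have h0 : ∀ p : Polynomial R, p.comp (Polynomial.C ω * Polynomial.X) =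
        Polynomial.compRingHom (Polynomial.C ω * Polynomial.X) p := fun p => rfl
    rw [h0, hq, map_sum]
    apply Fintype.sum_equiv (Equiv.mulLeft τ)
    intro σ
    rw [← h0]
    rw [Polynomial.mul_comp, Polynomial.C_comp, Polynomial.prod_comp]
    congr 1
    · refine Finset.prod_congr rfl fun i _ => ?_
      rw [Polynomial.add_comp, Polynomial.mul_comp, Polynomial.C_comp, Polynomial.C_comp,
        Polynomial.X_comp]
      have h1 : (Equiv.mulLeft τ σ) (Sum.inl i) = τ (σ (Sum.inl i)) := rfl
      rw [h1, hA, hB, Polynomial.C_mul]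
      ring
    · congr 1
      refine Finset.prod_congr rfl fun k _ => ?_
      have h1 : (Equiv.mulLeft τ σ) (Sum.inr k) = τ (σ (Sum.inr k)) := rfl
      rw [h1, hW]
  have hmid : ∀ s, 0 < s → s < n → q.coeff s = 0 := by
    intro s hs hsn
    have h1 := congrArg (fun p => Polynomial.coeff p s) hinv
    simp only [Polynomial.comp_C_mul_X_coeff] at h1
    have h2 : q.coeff s * (ω ^ s - 1) = 0 := by rw [mul_sub, h1]; ring
    rcases mul_eq_zero.1 h2 with h | h
    · exact h
    · exact absurd (sub_eq_zero.1 h) (hω s hs hsn)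
  have h1 := heval 1
  have h2 : (fun i c => A i c + 1 * B i c) = fun i c => A i c + B i c := by
    funext i c; rw [one_mul]
  rw [h2] at h1
  rw [← h1, Polynomial.eval_eq_sum_range' (n := n + 1) (by omega)]
  simp only [one_pow, mul_one]
  rw [Finset.sum_range_succ, hcoeffn, ← hcoeff0]
  congr 1
  obtain ⟨n', hn'⟩ : ∃ n', n = n' + 1 := ⟨n - 1, by omega⟩
  rw [hn', Finset.sum_range_succ']
  rw [Finset.sum_eq_zero fun s hs => hmid (s + 1) (by omega) (by
    have := Finset.mem_range.1 hs; omega), zero_add]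

end Poly

section Gadget

variable {R : Type*} [CommRing R] {n : ℕ}

/-- first part of the rows of the first kind -/
def gA (T : Fin n → Fin n → R) : Fin n → Fin n ⊕ (Fin n ⊕ Fin n) → R :=
  fun i c => c.elim (fun t => T i t) fun _ => 0

/-- second part of the rows of the first kind -/
def gB (a : Fin n → R) : Fin n → Fin n ⊕ (Fin n ⊕ Fin n) → R :=
  fun _ c => c.elim (fun _ => 0) fun c' => c'.elim (fun _ => 0) fun b => a b

/-- the other rows -/
def gW (Z : Fin n → Fin n → R) : Fin n ⊕ Fin n → Fin n ⊕ (Fin n ⊕ Fin n) → R :=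
  fun k c => k.elim
    (fun i => c.elim (fun _ => 0) fun c' => c'.elim (fun j => Z i j) fun _ => 1)
    (fun _ => c.elim (fun _ => 1) fun c' => c'.elim (fun _ => 1) fun _ => 0)

/-- the matrix -/
def gadget (T : Fin n → Fin n → R) (a : Fin n → R) (Z : Fin n → Fin n → R) :
    Matrix (Fin n ⊕ (Fin n ⊕ Fin n)) (Fin n ⊕ (Fin n ⊕ Fin n)) R :=
  rowsM (fun i c => gA T i c + gB a i c) (gW Z)

lemma permanent_ones (n : ℕ) :
    (Matrix.of fun _ _ : Fin n => (1 : R)).permanent = (n.factorial : R) := by
  have := permanent_allcols (R := R) (m := Fin n) fun _ => 1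
  rw [this]
  simp

lemma permanent_A (T : Fin n → Fin n → R) (Z : Fin n → Fin n → R) :
    (rowsM (gA T) (gW Z)).permanent = (Matrix.of T).permanent * (n.factorial : R) ^ 2 := by
  have h1 : rowsM (gA T) (gW Z) = Matrix.fromBlocks (Matrix.of T) 0
      (Matrix.of fun k c => gW Z k (Sum.inl c))
      (Matrix.of fun k c => gW Z k (Sum.inr c)) := by
    ext r c
    rcases r with r | r <;> rcases c with c | c <;> rfl
  rw [h1, permanent_block']
  congr 1
  rw [← Matrix.permanent_permute_cols (Equiv.sumComm (Fin n) (Fin n))]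
  have h2 : (Matrix.of fun (k c : Fin n ⊕ Fin n) => gW Z k (Sum.inr c)).submatrix
      (Equiv.sumComm (Fin n) (Fin n)) id = Matrix.fromBlocks (Matrix.of fun _ _ : Fin n => (1 : R))
      0 (Matrix.of Z) (Matrix.of fun _ _ : Fin n => (1 : R)) := by
    ext r c
    rcases r with r | r <;> rcases c with c | c <;> rfl
  rw [h2, permanent_block', permanent_ones, pow_two]

/-- swap of the outer column blocks -/
def swapP (n : ℕ) : Equiv.Perm (Fin n ⊕ (Fin n ⊕ Fin n)) where
  toFun c := c.elim (fun t => Sum.inr (Sum.inr t)) fun c' => c'.elim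
    (fun j => Sum.inr (Sum.inl j)) fun b => Sum.inl b
  invFun c := c.elim (fun t => Sum.inr (Sum.inr t)) fun c' => c'.elim
    (fun j => Sum.inr (Sum.inl j)) fun b => Sum.inl b
  left_inv c := by rcases c with c | c | c <;> rfl
  right_inv c := by rcases c with c | c | c <;> rfl

lemma permanent_B (a : Fin n → R) (Z : Fin n → Fin n → R) :
    (rowsM (gB a) (gW Z)).permanent =
      (∏ c, a c) * (Matrix.of Z).permanent * (n.factorial : R) ^ 2 := by
  rw [← Matrix.permanent_permute_rows (swapP n)]
  have h1 : (rowsM (gB a) (gW Z)).submatrix id (swapP n) = Matrix.fromBlocks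
      (Matrix.of fun _ c : Fin n => a c) 0
      (Matrix.of fun k c => gW Z k (swapP n (Sum.inl c)))
      (Matrix.of fun k c => gW Z k (swapP n (Sum.inr c))) := by
    ext r c
    rcases r with r | r <;> rcases c with c | c | c <;> rfl
  rw [h1, permanent_block', permanent_allcols]
  have h2 : (Matrix.of fun (k c : Fin n ⊕ Fin n) => gW Z k (swapP n (Sum.inr c))) =
      Matrix.fromBlocks (Matrix.of Z) 0 (Matrix.of fun _ _ : Fin n => (1 : R))
        (Matrix.of fun _ _ : Fin n => (1 : R)) := by
    ext r c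
    rcases r with r | r <;> rcases c with c | c <;> rfl
  rw [h2, permanent_block', permanent_ones, Fintype.card_fin]
  ring

theorem permanent_gadget [IsDomain R] (T : Fin n → Fin n → R) (Z : Fin n → Fin n → R)
    (ω : R) (hn : 0 < n) (hω1 : ω ^ n = 1) (hω : ∀ s, 0 < s → s < n → ω ^ s ≠ 1) :
    (gadget T (fun c => ω ^ (c : ℕ)) Z).permanent = (n.factorial : R) ^ 2 *
      ((Matrix.of T).permanent + (∏ c : Fin n, ω ^ (c : ℕ)) * (Matrix.of Z).permanent) := by
  unfold gadget
  rw [permanent_split (gA T) (gB fun c => ω ^ (c : ℕ)) (gW Z) ω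
    (by rw [Fintype.card_fin]; exact hω) (by rw [Fintype.card_fin]; exact hn)
    (Equiv.sumCongr (Equiv.refl _) (Equiv.sumCongr (Equiv.refl _) (finRotate n)))
    ?_ ?_ ?_, permanent_A, permanent_B]
  · ring
  · intro i c
    rcases c with c | c | c <;> rfl
  · intro i c
    rcases c with c | c | c
    · show (0 : R) = ω * 0
      rw [mul_zero]
    · show (0 : R) = ω * 0
      rw [mul_zero]
    · show ω ^ ((finRotate n c : Fin n) : ℕ) = ω * ω ^ (c : ℕ)
      obtain ⟨m, rfl⟩ : ∃ m, n = m + 1 := ⟨n - 1, by omega⟩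
      rw [finRotate_apply, Fin.val_add_one]
      split_ifs with h
      · rw [h, Fin.val_last, ← pow_succ', hω1, pow_zero]
      · rw [pow_succ']
  · intro k c
    rcases k with k | k <;> rcases c with c | c | c <;> rfl

/-- the padded matrix -/
def padded (T : Fin n → Fin n → R) (a : Fin n → R) (Z : Fin n → Fin n → R) (ρ : ℕ) :
    Matrix ((Fin n ⊕ (Fin n ⊕ Fin n)) ⊕ Fin ρ) ((Fin n ⊕ (Fin n ⊕ Fin n)) ⊕ Fin ρ) R :=
  Matrix.fromBlocks (gadget T a Z) 0 0 1

theorem permanent_padded [IsDomain R] (T : Fin n → Fin n → R) (Z : Fin n → Fin n → R)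
    (ω : R) (hn : 0 < n) (hω1 : ω ^ n = 1) (hω : ∀ s, 0 < s → s < n → ω ^ s ≠ 1) (ρ : ℕ) :
    (padded T (fun c => ω ^ (c : ℕ)) Z ρ).permanent = (n.factorial : R) ^ 2 *
      ((Matrix.of T).permanent + (∏ c : Fin n, ω ^ (c : ℕ)) * (Matrix.of Z).permanent) := by
  unfold padded
  rw [permanent_block', permanent_one, mul_one, permanent_gadget T Z ω hn hω1 hω]

end Gadget

end Pool.Agent.H53R8
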