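import Pool.Agent.H53R8.Mult

/-! # The bound for multiples of the permanent -/

set_option autoImplicit false
set_option linter.unusedSectionVars false

open MvPolynomial Module Finset

namespace Pool.Agent.H53R8

open Pool.Agent.H546R2.SL Pool.Agent.H53R7

lemma aeval_perN {K A : Type*} [Field K] [CommRing A] [Algebra K A] {N : ℕ}
    (m : Fin N × Fin N → A) :
    aeval m (perN K N) = (Matrix.of fun i j => m (i, j)).permanent := by
  unfold perN Matrix.permanent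
  rw [map_sum]
  refine Finset.sum_congr rfl fun s _ => ?_
  rw [map_prod]
  refine Finset.prod_congr rfl fun i _ => ?_
  rw [Matrix.of_apply, aeval_X, Matrix.of_apply]

theorem mult_ineq (K : Type*) [Field K] [IsAlgClosed K] [CharZero K] (n ρ N : ℕ) (hn : 0 < n)
    (hN : N = 3 * n + ρ) (Q : MvPolynomial (Fin N × Fin N) K) (hQ : Q ≠ 0)
    (s : ℕ) (M : Finset ℕ) (g : ℕ → MvPolynomial (Fin N × Fin N) K) (hg : NSLP s M g)
    (hFg : ∃ i < s, Q * perN K N = g i) (q h k p : ℕ) (hk : 2 ≤ k)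
    (hn' : n = q * (4 * k + h) + h * (2 * k + h + 2) + (3 * k + h + 1) + p) :
    (k - 1) ^ (q * (q * (h * k))) ≤ 2 ^ (3 * (M.card + n + n ^ 2 / 8)) := by
  classical
  have : NeZero (n : K) := ⟨by exact_mod_cast hn.ne'⟩
  obtain ⟨ω, hω₀⟩ := IsAlgClosed.exists_root (Polynomial.cyclotomic n K)
    (Polynomial.degree_cyclotomic_pos n K hn).ne'
  have hω : IsPrimitiveRoot ω n := Polynomial.isRoot_cyclotomic_iff.1 hω₀
  let e : Fin N ≃ ((Fin n ⊕ (Fin n ⊕ Fin n)) ⊕ Fin ρ) :=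
    Fintype.equivOfCardEq (by simp only [Fintype.card_fin, Fintype.card_sum]; omega)
  set m₀ : Fin N × Fin N → MvPolynomial (Option (Fin n × Fin n)) K :=
    fun v => bigM n ρ ω (e v.1) (e v.2) with hm₀
  obtain ⟨x, hx⟩ : ∃ x : Fin N × Fin N → K, eval x Q ≠ 0 := by
    by_contra hcon
    push Not at hcon
    apply hQ
    apply MvPolynomial.funext
    intro x
    rw [hcon x, map_zero]
  set w : Fin N × Fin N → K := fun v => x v - eval 0 (m₀ v) with hw
  set m : Fin N × Fin N → MvPolynomial (Option (Fin n × Fin n)) (Polynomial K) := fun v =>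
    map Polynomial.C (m₀ v) + C (Polynomial.X * Polynomial.C (w v)) with hm
  have hs0 : ∀ v, map (Polynomial.evalRingHom (0 : K)) (m v) = m₀ v := by
    intro v
    rw [hm]
    simp only [map_add, map_C, Polynomial.coe_evalRingHom, Polynomial.eval_mul,
      Polynomial.eval_X, zero_mul, map_zero, add_zero]
    have : (Polynomial.evalRingHom (0 : K)).comp Polynomial.C = RingHom.id K := by
      ext c; simp
    rw [MvPolynomial.map_map, this, map_id]
  have hbase : ∀ (t : K) (c : K), Polynomial.evalRingHom t (algebraMap K (Polynomial K) c)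
      = algebraMap K K c := by
    intro t c
    rw [Polynomial.algebraMap_eq]; simp
  have hE : aeval m Q ≠ 0 := by
    intro h
    apply hx
    have h1 := congrArg (map (Polynomial.evalRingHom (1 : K))) h
    rw [map_aeval_base _ (hbase 1), map_zero] at h1
    have h2 := congrArg (eval (0 : Option (Fin n × Fin n) → K)) h1
    rw [map_zero] at h2
    rw [← h2]
    have h3 : (eval (0 : Option (Fin n × Fin n) → K)).comp
        ((aeval fun v => map (Polynomial.evalRingHom (1 : K)) (m v) :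
        MvPolynomial (Fin N × Fin N) K →ₐ[K] MvPolynomial (Option (Fin n × Fin n)) K) :
          MvPolynomial (Fin N × Fin N) K →+* MvPolynomial (Option (Fin n × Fin n)) K)
        = eval x := by
      apply MvPolynomial.ringHom_ext
      · intro c; simp
      · intro v
        simp only [RingHom.comp_apply, RingHom.coe_coe, aeval_X, eval_X]
        rw [hm]
        simp only [map_add, map_C, Polynomial.coe_evalRingHom, Polynomial.eval_mul,
          Polynomial.eval_X, one_mul, Polynomial.eval_C, eval_C]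
        have : (Polynomial.evalRingHom (1 : K)).comp Polynomial.C = RingHom.id K := by
          ext c; simp
        rw [MvPolynomial.map_map, this, map_id, hw]
        simp
    exact (DFunLike.congr_fun h3 Q).symm
  obtain ⟨k₀, Q', hQ', hQ'0⟩ := exists_eps _ hE
  set Φ := aeval m (perN K N) with hΦ
  have hΦ0 : map (Polynomial.evalRingHom (0 : K)) Φ =
      C (-((n.factorial : K) ^ 2 * ∏ c : Fin n, ω ^ (c : ℕ))) * qq (perN K n) := by
    rw [hΦ, map_aeval_base _ (hbase 0), funext hs0, aeval_perN]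
    have h1 : (Matrix.of fun i j => m₀ (i, j)) = (bigM n ρ ω).submatrix e e := by
      ext1 i j
      rfl
    rw [h1, permanent_reindex, permanent_bigM ρ hn ω hω]
  have hκ : (-((n.factorial : K) ^ 2 * ∏ c : Fin n, ω ^ (c : ℕ))) ≠ 0 := by
    rw [neg_ne_zero]
    refine mul_ne_zero (pow_ne_zero _ (by exact_mod_cast n.factorial_ne_zero)) ?_
    refine Finset.prod_ne_zero_iff.2 fun c _ => pow_ne_zero _ ?_
    exact hω.ne_zero hn.ne'
  have hqq : qq (perN K n) ≠ 0 := by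
    intro h0
    have h1 := congrArg (gs (0 : MvPolynomial (Fin n × Fin n) K)) h0
    have h2 := congrArg (gs (1 : MvPolynomial (Fin n × Fin n) K)) h0
    rw [qq, map_sub, gs_none, gs_rename, map_zero] at h1 h2
    have h3 : (0 : MvPolynomial (Fin n × Fin n) K) = 1 := by
      rw [sub_eq_zero] at h1 h2
      rw [h1, ← h2]
    exact zero_ne_one h3
  set alg := algebraMap (Polynomial K) (RatFunc K) with halg
  have hbaseL : ∀ c : K, alg (algebraMap K (Polynomial K) c) = algebraMap K (RatFunc K) c := by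
    intro c
    rw [halg, ← IsScalarTower.algebraMap_apply]
  set mL : Fin N × Fin N → MvPolynomial (Option (Fin n × Fin n)) (RatFunc K) :=
    fun v => map alg (m v) with hmL
  have hmLaff : ∀ v, mL v ∈ Submodule.span (RatFunc K)
      ({1} ∪ Set.range (X : Option (Fin n × Fin n) → _)) := by
    intro v
    have h1 : Aff (m v) := ((aff_bigM n ρ ω _ _).map _).add (aff_C _)
    exact h1.map alg
  have hprog := nslp_subst mL hmLaff s M _ (hg.map (algebraMap K (RatFunc K)))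
  have htr : ∀ f : MvPolynomial (Fin N × Fin N) K,
      aeval mL (map (algebraMap K (RatFunc K)) f) = map alg (aeval m f) := by
    intro f
    rw [aeval_map_base, map_aeval_base alg hbaseL]
  have hX : alg (Polynomial.X ^ k₀) ≠ 0 := by
    rw [halg, Ne, FaithfulSMul.algebraMap_eq_zero_iff]
    exact pow_ne_zero _ Polynomial.X_ne_zero
  refine border_ineq' K n (Q' * Φ) ?_ ?_
    (aeval mL (map (algebraMap K (RatFunc K)) (Q * perN K N))) (alg (Polynomial.X ^ k₀))⁻¹ ?_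
    s M _ hprog ?_ q h k p hk hn'
  · rw [map_mul, hΦ0]
    exact mul_ne_zero hQ'0 (mul_ne_zero (by rwa [Ne, C_eq_zero]) hqq)
  · rw [map_mul, hΦ0, map_mul, map_mul, gs_qq, mul_zero, mul_zero]
  · have h1 : aeval m (Q * perN K N) = C (Polynomial.X ^ k₀) * (Q' * Φ) := by
      rw [map_mul, hQ', ← hΦ, mul_assoc]
    rw [htr, h1, map_mul (map alg) (C (Polynomial.X ^ k₀)), map_C, ← mul_assoc, ← C_mul,
      inv_mul_cancel₀ hX, C_1, one_mul]
  · obtain ⟨i, hi, hFi⟩ := hFg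
    exact ⟨i, hi, by rw [hFi]⟩

theorem mult_ineq' (K : Type*) [Field K] [CharZero K] (n ρ N : ℕ) (hn : 0 < n)
    (hN : N = 3 * n + ρ) (Q : MvPolynomial (Fin N × Fin N) K) (hQ : Q ≠ 0)
    (s : ℕ) (M : Finset ℕ) (g : ℕ → MvPolynomial (Fin N × Fin N) K) (hg : NSLP s M g)
    (hFg : ∃ i < s, Q * perN K N = g i) (q h k p : ℕ) (hk : 2 ≤ k)
    (hn' : n = q * (4 * k + h) + h * (2 * k + h + 2) + (3 * k + h + 1) + p) :
    (k - 1) ^ (q * (q * (h * k))) ≤ 2 ^ (3 * (M.card + n + n ^ 2 / 8)) := by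
  set f := algebraMap K (AlgebraicClosure K) with hf
  refine mult_ineq (AlgebraicClosure K) n ρ N hn hN (map f Q) ?_ s M _ (hg.map f) ?_ q h k p hk hn'
  · intro h
    apply hQ
    apply map_injective f f.injective
    rw [h, map_zero]
  · obtain ⟨i, hi, hFi⟩ := hFg
    exact ⟨i, hi, by rw [← hFi, map_mul, map_perN]⟩

theorem mult_lower (ε : ℝ) (hε : 0 < ε) : ∃ n₀ : ℕ, ∀ (K : Type*) [Field K] [CharZero K],
    ∀ n ≥ n₀, ∀ ρ N : ℕ, N = 3 * n + ρ → ∀ (s : ℕ) (M : Finset ℕ)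
      (g : ℕ → MvPolynomial (Fin N × Fin N) K), NSLP s M g →
      ∀ Q : MvPolynomial (Fin N × Fin N) K, Q ≠ 0 → (∃ i < s, Q * perN K N = g i) →
      (1 / 96 - ε) * (n : ℝ) ^ 2 * Real.logb 2 n ≤ M.card := by
  obtain ⟨N₀, hN₀⟩ := Pool.Agent.H632R3.BNL.numeric (ε / 2) (by positivity)
  obtain ⟨a, ha⟩ := exists_nat_ge (4 / ε)
  refine ⟨max (max N₀ 1) (2 ^ a), fun K _ _ n hn ρ N hN s M g hg Q hQ hFg => ?_⟩
  have hN1 : N₀ ≤ n := (le_max_left _ _).trans ((le_max_left _ _).trans hn)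
  have hN2 : 1 ≤ n := (le_max_right _ _).trans ((le_max_left _ _).trans hn)
  have hN3 : 2 ^ a ≤ n := (le_max_right _ _).trans hn
  have hNr : (1 : ℝ) ≤ n := by exact_mod_cast hN2
  have h1 := hN₀ n hN1 (M.card + n + n ^ 2 / 8) (fun q h k p hk hNe =>
    mult_ineq' K n ρ N hN2 hN Q hQ s M g hg hFg q h k p hk hNe)
  have h2 : (4 / ε) ≤ Real.logb 2 n := by
    refine ha.trans ?_
    rw [Real.le_logb_iff_rpow_le (by norm_num) (by linarith)]
    rw [Real.rpow_natCast]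
    exact_mod_cast hN3
  have h3 : (4 : ℝ) ≤ ε * Real.logb 2 n := by
    rw [div_le_iff₀ hε] at h2
    linarith
  have h4 : ((M.card + n + n ^ 2 / 8 : ℕ) : ℝ) ≤ M.card + 2 * (n : ℝ) ^ 2 := by
    have h5 : ((n ^ 2 / 8 : ℕ) : ℝ) ≤ (n : ℝ) ^ 2 := by
      have : n ^ 2 / 8 ≤ n ^ 2 := Nat.div_le_self _ _
      exact_mod_cast this
    have h6 : (n : ℝ) ≤ (n : ℝ) ^ 2 := by nlinarith
    push_cast at h5 ⊢
    linarith
  have h7 : 2 * (n : ℝ) ^ 2 ≤ (ε / 2) * (n : ℝ) ^ 2 * Real.logb 2 n := by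
    have : 0 ≤ (n : ℝ) ^ 2 := by positivity
    nlinarith
  have h8 : (1 / 96 - ε) * (n : ℝ) ^ 2 * Real.logb 2 n
      = (1 / 96 - ε / 2) * (n : ℝ) ^ 2 * Real.logb 2 n
        - (ε / 2) * (n : ℝ) ^ 2 * Real.logb 2 n := by ring
  rw [h8]
  linarith

/-- **Multiples of the permanent.** -/
theorem multiples_lower (ε : ℝ) (hε : 0 < ε) : ∃ N₀ : ℕ, ∀ (K : Type*) [Field K] [CharZero K],
    ∀ N ≥ N₀, ∀ (s : ℕ) (M : Finset ℕ) (g : ℕ → MvPolynomial (Fin N × Fin N) K), NSLP s M g →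
      ∀ Q : MvPolynomial (Fin N × Fin N) K, Q ≠ 0 → (∃ i < s, Q * perN K N = g i) →
      (1 / 864 - ε) * (N : ℝ) ^ 2 * Real.logb 2 N ≤ M.card := by
  set ε₁ : ℝ := min ε (1 / 96) with hε₁
  have h01 : 0 < ε₁ := lt_min hε (by norm_num)
  have h02 : ε₁ ≤ ε := min_le_left _ _
  have h03 : ε₁ ≤ 1 / 96 := min_le_right _ _
  obtain ⟨n₀, hn₀⟩ := mult_lower ε₁ h01
  obtain ⟨a, ha⟩ := exists_nat_ge (2 / ε)
  refine ⟨max (3 * n₀ + 10) (2 ^ a), fun K _ _ N hN s M g hg Q hQ hFg => ?_⟩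
  have hN1 : 3 * n₀ + 10 ≤ N := (le_max_left _ _).trans hN
  have hN2 : 2 ^ a ≤ N := (le_max_right _ _).trans hN
  set n := N / 3 with hn
  obtain ⟨ρ, hρ⟩ : ∃ ρ, N = 3 * n + ρ := ⟨N % 3, by omega⟩
  have hρ2 : ρ ≤ 2 := by omega
  have hn1 : n₀ ≤ n := by omega
  have hn3 : 3 ≤ n := by omega
  have h1 := hn₀ K n hn1 ρ N hρ s M g hg Q hQ hFg
  have hnr : (3 : ℝ) ≤ n := by exact_mod_cast hn3
  have hNr : (N : ℝ) = 3 * n + ρ := by rw [hρ]; push_cast; ring
  have hρr : (ρ : ℝ) ≤ 2 := by exact_mod_cast hρ2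
  have hρ0 : (0 : ℝ) ≤ ρ := Nat.cast_nonneg _
  have hN0 : (9 : ℝ) ≤ N := by linarith
  set ℓN := Real.logb 2 N with hℓN
  set ℓn := Real.logb 2 n with hℓn
  -- the logarithms
  have h2 : 2 / ε ≤ ℓN := by
    refine ha.trans ?_
    rw [hℓN, Real.le_logb_iff_rpow_le (by norm_num) (by linarith), Real.rpow_natCast]
    exact_mod_cast hN2
  have h3 : ℓN - 2 ≤ ℓn := by
    have h4 : (N : ℝ) ≤ 4 * n := by linarith
    have h5 : ℓN ≤ Real.logb 2 (4 * n) := Real.logb_le_logb_of_le (by norm_num) (by linarith) h4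
    have h6 : Real.logb 2 (4 * n) = 2 + ℓn := by
      rw [Real.logb_mul (by norm_num) (by linarith), show (4 : ℝ) = 2 ^ (2 : ℝ) by norm_num,
        Real.logb_rpow (by norm_num) (by norm_num)]
    linarith
  have h4 : ℓN ≤ N := by
    rw [hℓN, Real.logb_le_iff_le_rpow (by norm_num) (by linarith), Real.rpow_natCast]
    exact_mod_cast Nat.lt_two_pow_self.le
  have h5 : 0 ≤ ℓn := Real.logb_nonneg (by norm_num) (by linarith)
  have h5' : 2 ≤ ℓN := by
    rw [hℓN, Real.le_logb_iff_rpow_le (by norm_num) (by linarith)]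
    norm_num
    linarith
  -- `n ^ 2 ℓn ≥ N ^ 2 ℓN / 9 - N ^ 2`
  have h6 : (N : ℝ) ^ 2 - 5 * N ≤ 9 * (n : ℝ) ^ 2 := by
    rw [hNr]; nlinarith
  have h7 : (N : ℝ) ^ 2 * ℓN - 9 * (N : ℝ) ^ 2 ≤ 9 * ((n : ℝ) ^ 2 * ℓn) := by
    have h8 : 9 * (n : ℝ) ^ 2 * (ℓN - 2) ≤ 9 * (n : ℝ) ^ 2 * ℓn :=
      mul_le_mul_of_nonneg_left h3 (by positivity)
    have h9 : ((N : ℝ) ^ 2 - 5 * N) * (ℓN - 2) ≤ 9 * (n : ℝ) ^ 2 * (ℓN - 2) :=
      mul_le_mul_of_nonneg_right h6 (by linarith)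
    have h10 : (N : ℝ) * ℓN ≤ (N : ℝ) ^ 2 := by nlinarith
    nlinarith
  have h8 : (1 / 96 - ε₁) * ((N : ℝ) ^ 2 * ℓN - 9 * (N : ℝ) ^ 2) ≤
      9 * ((1 / 96 - ε₁) * (n : ℝ) ^ 2 * ℓn) := by
    have := mul_le_mul_of_nonneg_left h7 (by linarith : (0 : ℝ) ≤ 1 / 96 - ε₁)
    linarith
  have h9 : (2 : ℝ) ≤ ε * ℓN := by
    rw [div_le_iff₀ hε] at h2
    linarith
  have h10 : 2 * (N : ℝ) ^ 2 ≤ ε * ((N : ℝ) ^ 2 * ℓN) := by
    have : (0 : ℝ) ≤ (N : ℝ) ^ 2 := by positivity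
    nlinarith
  have h11 : ε₁ * ((N : ℝ) ^ 2 * ℓN) ≤ ε * ((N : ℝ) ^ 2 * ℓN) :=
    mul_le_mul_of_nonneg_right h02 (by positivity)
  have h12 : 0 ≤ (N : ℝ) ^ 2 := by positivity
  nlinarith

end Pool.Agent.H53R8
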