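import Pool.Agent.H53R8.Border
import Pool.Agent.H53R8.Gadget

/-! # Programs for multiples of the permanent -/

set_option autoImplicit false
set_option linter.unusedSectionVars false

open MvPolynomial Module Finset

namespace Pool.Agent.H53R8

open Pool.Agent.H546R2.SL Pool.Agent.H53R7

/-- affine substitution in a program -/
lemma nslp_subst {F : Type*} [Field F] {σ τ : Type*} (m : σ → MvPolynomial τ F)
    (hm : ∀ v, m v ∈ Submodule.span F ({1} ∪ Set.range (X : τ → MvPolynomial τ F))) (s : ℕ)
    (M : Finset ℕ) (g : ℕ → MvPolynomial σ F) (hg : NSLP s M g) :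
    NSLP s M (fun i => aeval m (g i)) := by
  intro i hi
  rcases hg i hi with ⟨h1, h2⟩ | ⟨h1, a, ha, b, hb, hab⟩
  · refine Or.inl ⟨h1, ?_⟩
    have h3 := Submodule.mem_map_of_mem (f := (aeval m : MvPolynomial σ F →ₐ[F] _).toLinearMap) h2
    rw [Submodule.map_span] at h3
    refine (Submodule.span_le.2 ?_) h3
    rintro _ ⟨p, hp, rfl⟩
    rcases hp with (hp | ⟨v, rfl⟩) | ⟨j, hj, rfl⟩
    · rw [Set.mem_singleton_iff] at hp
      subst hp
      apply Submodule.subset_span
      refine Or.inl (Or.inl ?_)
      show aeval m (1 : MvPolynomial σ F) ∈ _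
      rw [map_one]
      exact Set.mem_singleton _
    · show aeval m (X v) ∈ _
      rw [aeval_X]
      exact Submodule.span_mono Set.subset_union_left (hm v)
    · exact Submodule.subset_span (Or.inr ⟨j, hj, rfl⟩)
  · refine Or.inr ⟨h1, a, ha, b, hb, ?_⟩
    show aeval m (g i) = aeval m (g a) * aeval m (g b)
    rw [hab, map_mul]

/-- being in the span of `1` and the variables -/
def Aff {F : Type*} [CommRing F] {τ : Type*} (p : MvPolynomial τ F) : Prop :=
  p ∈ Submodule.span F ({1} ∪ Set.range (X : τ → MvPolynomial τ F))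

lemma aff_C {F : Type*} [CommRing F] {τ : Type*} (c : F) : Aff (C c : MvPolynomial τ F) := by
  have h : (C c : MvPolynomial τ F) = c • 1 := by rw [smul_eq_C_mul, mul_one]
  unfold Aff
  rw [h]
  exact Submodule.smul_mem _ _ (Submodule.subset_span (Or.inl rfl))

lemma aff_X {F : Type*} [CommRing F] {τ : Type*} (v : τ) : Aff (X v : MvPolynomial τ F) :=
  Submodule.subset_span (Or.inr ⟨v, rfl⟩)

lemma Aff.add {F : Type*} [CommRing F] {τ : Type*} {p q : MvPolynomial τ F} (hp : Aff p)
    (hq : Aff q) : Aff (p + q) := Submodule.add_mem _ hp hq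

lemma Aff.C_mul {F : Type*} [CommRing F] {τ : Type*} {p : MvPolynomial τ F} (c : F) (hp : Aff p) :
    Aff (C c * p) := by
  rw [← smul_eq_C_mul]; exact Submodule.smul_mem _ _ hp

lemma Aff.map {F F' : Type*} [CommRing F] [CommRing F'] (f : F →+* F') {τ : Type*}
    {p : MvPolynomial τ F} (hp : Aff p) : Aff (map f p) := by
  unfold Aff at hp
  induction hp using Submodule.span_induction with
  | mem x hx =>
    rcases hx with hx | ⟨v, rfl⟩
    · rw [Set.mem_singleton_iff] at hx
      subst hx
      rw [map_one, ← map_one C]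
      exact aff_C 1
    · rw [map_X]; exact aff_X v
  | zero => rw [map_zero]; exact Submodule.zero_mem _
  | add x y _ _ hx hy => rw [map_add]; exact hx.add hy
  | smul c x _ hx => rw [smul_eq_C_mul, map_mul, map_C]; exact hx.C_mul _

section Sub

variable {K : Type*} [Field K]

/-- the entries of the first diagonal block -/
noncomputable def dT {n : ℕ} (y : MvPolynomial (Option (Fin n × Fin n)) K) :
    Fin n → Fin n → MvPolynomial (Option (Fin n × Fin n)) K :=
  fun i j => if i = j then (if (i : ℕ) = 0 then y else 1) else 0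

lemma permanent_dT {n : ℕ} (hn : 0 < n) (y : MvPolynomial (Option (Fin n × Fin n)) K) :
    (Matrix.of (dT y)).permanent = y := by
  have h1 : Matrix.of (dT y) = Matrix.diagonal fun i : Fin n => if (i : ℕ) = 0 then y else 1 := by
    ext i j
    by_cases h : i = j
    · subst h; simp [dT]
    · simp [dT, h]
  rw [h1, Matrix.permanent_diagonal]
  rw [Finset.prod_eq_single (⟨0, hn⟩ : Fin n)]
  · simp
  · intro b _ hb
    rw [if_neg]
    intro h
    exact hb (Fin.ext h)
  · intro h; exact absurd (Finset.mem_univ _) h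

/-- the whole matrix -/
noncomputable def bigM (n ρ : ℕ) (ω : K) :
    Matrix ((Fin n ⊕ (Fin n ⊕ Fin n)) ⊕ Fin ρ) ((Fin n ⊕ (Fin n ⊕ Fin n)) ⊕ Fin ρ)
      (MvPolynomial (Option (Fin n × Fin n)) K) :=
  padded (dT (C (-∏ c : Fin n, ω ^ (c : ℕ)) * X none)) (fun c => (C ω) ^ (c : ℕ))
    (fun i j => X (some (i, j))) ρ

lemma permanent_bigM {n : ℕ} (ρ : ℕ) (hn : 0 < n) (ω : K) (hω : IsPrimitiveRoot ω n) :
    (bigM n ρ ω).permanent =
      C (-((n.factorial : K) ^ 2 * ∏ c : Fin n, ω ^ (c : ℕ))) * qq (perN K n) := by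
  unfold bigM
  rw [permanent_padded _ _ (C ω) hn (by rw [← map_pow, hω.pow_eq_one, map_one]) ?_ ρ,
    permanent_dT hn]
  · have h1 : (Matrix.of fun i j : Fin n =>
        (X (some (i, j)) : MvPolynomial (Option (Fin n × Fin n)) K)).permanent
        = rename some (perN K n) := by
      have h2 : (Matrix.of fun i j : Fin n =>
          (X (some (i, j)) : MvPolynomial (Option (Fin n × Fin n)) K)) =
          (Matrix.of fun i j : Fin n => (X (i, j) : MvPolynomial (Fin n × Fin n) K)).map
            (rename some : MvPolynomial (Fin n × Fin n) K →ₐ[K] _).toRingHom := by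
        ext1 i j
        show _ = rename some (X (i, j))
        rw [rename_X]
        rfl
      rw [h2, permanent_map]
      rfl
    rw [h1, qq]
    simp only [map_neg, map_mul, map_pow, map_prod, map_natCast]
    ring
  · intro s hs hsn h
    rw [← map_pow, ← map_one C] at h
    exact hω.pow_ne_one_of_pos_of_lt (by omega) hsn (C_injective _ _ h)

lemma aff_bigM (n ρ : ℕ) (ω : K) (r c : (Fin n ⊕ (Fin n ⊕ Fin n)) ⊕ Fin ρ) :
    Aff (bigM n ρ ω r c) := by
  have h0 : Aff (0 : MvPolynomial (Option (Fin n × Fin n)) K) := by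
    rw [← map_zero C]; exact aff_C 0
  have h1 : Aff (1 : MvPolynomial (Option (Fin n × Fin n)) K) := by
    rw [← map_one C]; exact aff_C 1
  have hT : ∀ i j : Fin n, Aff (dT (C (-∏ c : Fin n, ω ^ (c : ℕ)) * X none :
      MvPolynomial (Option (Fin n × Fin n)) K) i j) := by
    intro i j
    unfold dT
    split_ifs
    · exact (aff_X _).C_mul _
    · exact h1
    · exact h0
  rcases r with (r | r | r) | r <;> rcases c with (c | c | c) | c
  · show Aff (dT _ r c + 0)
    rw [add_zero]; exact hT r c
  · show Aff (0 + 0)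
    rw [add_zero]; exact h0
  · show Aff (0 + (C ω) ^ (c : ℕ))
    rw [zero_add, ← map_pow]; exact aff_C _
  · exact h0
  · exact h0
  · exact aff_X _
  · exact h1
  · exact h0
  · exact h1
  · exact h1
  · exact h0
  · exact h0
  · exact h0
  · exact h0
  · exact h0
  · show Aff ((1 : Matrix (Fin ρ) (Fin ρ) _) r c)
    rw [Matrix.one_apply]
    split_ifs
    · exact h1
    · exact h0

end Sub

end Pool.Agent.H53R8
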