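import Pool.Agent.H53R7.Final

/-! # Randomized computation trees -/

set_option autoImplicit false
set_option linter.unusedSectionVars false

open MvPolynomial Finset Filter

namespace Pool.Agent.H53R8

open Pool.Agent.H546R2.SL Pool.Agent.H213R3.PC Pool.Agent.H53R7

universe u

theorem rand_lower {K : Type u} [Field K] [CharZero K] {T : Type} [Fintype T] {τ : K → T}
    {𝓕 : Filter K} (h : TestLocus τ 𝓕) (N : ℕ) (B : ℝ)
    (hB : ∀ (s : ℕ) (M : Finset ℕ) (g : ℕ → MvPolynomial (Option (Fin N × Fin N)) K),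
      NSLP s M g → ∀ F : MvPolynomial (Option (Fin N × Fin N)) K, F ≠ 0 →
      gs (perN K N) F = 0 → (∃ i < s, F = g i) → B ≤ M.card)
    {Ω : Type} [Fintype Ω] (w : Ω → ℝ) (hw0 : ∀ ω, 0 ≤ w ω) (hw1 : ∑ ω, w ω = 1) (δ : ℝ)
    (t : Ω → ACT K (Option (Fin N × Fin N)) T 0)
    (hyes : ∀ X : Matrix (Fin N) (Fin N) K,
      1 - δ ≤ ∑ ω, if (t ω).run τ (inp X X.permanent) Fin.elim0 = true then w ω else 0)
    (hno : ∀ (X : Matrix (Fin N) (Fin N) K) (y : K), y ≠ X.permanent →
      1 - δ ≤ ∑ ω, if (t ω).run τ (inp X y) Fin.elim0 = false then w ω else 0) (B' : ℝ)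
    (hB' : 3 * B' ≤ B) :
    1 - 2 * δ ≤ ∑ ω, if B' ≤ (t ω).cost then w ω else 0 := by
  classical
  have hne := h.neBot
  set P := perN K N with hP
  have key : ∀ ω : Ω, ∃ Δ : MvPolynomial (Fin N × Fin N) K, Δ ≠ 0 ∧ ∀ X₀, eval X₀ Δ ≠ 0 →
      ∀ᶠ s in 𝓕, (B' ≤ (t ω).cost ∨
        (t ω).run τ (pt P X₀ s) Fin.elim0 = (t ω).run τ (pt P X₀ 0) Fin.elim0) := by
    intro ω
    by_cases hc : B' ≤ (t ω).cost
    · exact ⟨1, one_ne_zero, fun X₀ _ => Eventually.of_forall fun s => Or.inl hc⟩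
    · obtain ⟨Δ, hΔ, hrun⟩ := run_stable h P (t ω) Fin.elim0 Fin.elim0 0 (by
        refine ⟨0, ∅, fun _ => 0, fun i hi => absurd hi (Nat.not_lt_zero i), by simp, by simp, ?_⟩
        rintro z (⟨i, _⟩ | ⟨i, _⟩) <;> exact i.elim0) (fun i => i.elim0) (by
        intro f hf hf0 hgf
        rw [zero_add] at hf
        apply hc
        obtain ⟨s, M, g, hg, _, hM, hfg⟩ := hf
        obtain ⟨i, hi, hfi⟩ := hfg f rfl
        have h1 := hB s M g hg f hf0 hgf ⟨i, hi, hfi⟩
        have h2 : (M.card : ℝ) ≤ 3 * ((t ω).cost : ℝ) := by exact_mod_cast hM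
        linarith)
      refine ⟨Δ, hΔ, fun X₀ hX => ?_⟩
      filter_upwards [hrun X₀ hX] with s hs
      right
      have he : ∀ s : K, (fun i : Fin 0 =>
          eval (pt P X₀ s) (Fin.elim0 i : MvPolynomial (Option (Fin N × Fin N)) K) /
          eval (pt P X₀ s) (Fin.elim0 i : MvPolynomial (Option (Fin N × Fin N)) K))
            = Fin.elim0 := by
        intro s
        funext i
        exact i.elim0
      rwa [he s, he 0] at hs
  choose Δ hΔ hst using key
  obtain ⟨X₀, hX⟩ : ∃ X₀ : Fin N × Fin N → K, eval X₀ (∏ ω, Δ ω) ≠ 0 := by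
    by_contra hcon
    push Not at hcon
    have : (∏ ω, Δ ω) = 0 := by
      apply MvPolynomial.funext
      intro x
      rw [hcon x, map_zero]
    exact Finset.prod_ne_zero_iff.2 (fun ω _ => hΔ ω) this
  rw [map_prod] at hX
  have hall : ∀ᶠ s in 𝓕, ∀ ω, (B' ≤ (t ω).cost ∨
        (t ω).run τ (pt P X₀ s) Fin.elim0 = (t ω).run τ (pt P X₀ 0) Fin.elim0) := by
    rw [eventually_all]
    exact fun ω => hst ω X₀ (Finset.prod_ne_zero_iff.1 hX ω (Finset.mem_univ ω))
  obtain ⟨s, hs, hs0⟩ := (hall.and h.ne).exists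
  set A : Matrix (Fin N) (Fin N) K := Matrix.of fun i j => X₀ (i, j) with hA
  have hperm : eval X₀ P = A.permanent := by
    rw [← eval_perN]
    rfl
  have hpt : ∀ c : K, pt P X₀ c = inp A (A.permanent + c) := by
    intro c
    funext o
    cases o with
    | none => simp only [pt, inp, Option.elim, hperm]
    | some p => rfl
  have h1 := hyes A
  have h2 := hno A (A.permanent + s) (by
    intro h3
    apply hs0
    have h4 : A.permanent + s = A.permanent + 0 := by rw [h3, add_zero]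
    exact add_left_cancel h4)
  have h0 : inp A A.permanent = pt P X₀ 0 := by rw [hpt, add_zero]
  rw [h0] at h1
  rw [← hpt] at h2
  have h3 : ∀ ω, (if (t ω).run τ (pt P X₀ 0) Fin.elim0 = true then w ω else 0) +
      (if (t ω).run τ (pt P X₀ s) Fin.elim0 = false then w ω else 0) ≤
      w ω + if B' ≤ (t ω).cost then w ω else 0 := by
    intro ω
    have hw := hw0 ω
    rcases hs ω with h4 | h4
    · rw [if_pos h4]
      split_ifs <;> linarith
    · rw [h4]
      have h5 : 0 ≤ (if B' ≤ ((t ω).cost : ℝ) then w ω else 0) := by split_ifs <;> linarith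
      cases (t ω).run τ (pt P X₀ 0) Fin.elim0
      · simp
        exact h5
      · simp
        exact h5
  have h4 := Finset.sum_le_sum fun ω (_ : ω ∈ Finset.univ) => h3 ω
  rw [Finset.sum_add_distrib, Finset.sum_add_distrib, hw1] at h4
  linarith

end Pool.Agent.H53R8
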